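import Pool.Agent.Helper49_LCR.Stmts

/-!
# Arcs between two points of the plane which hang together at a hub (module ORD, part 1)
-/

namespace Pool.Agent.LCR

/-- first hit of a closed set on a path -/
theorem first_hit {X Y : Set Pt} {p q : Pt} (hX : IsClosed X) (h : JoinedIn Y p q) (hq : q ∈ X) :
    ∃ z ∈ X ∩ Y, JoinedIn (insert z (Y \ X)) p z := by
  obtain ⟨γ, hγ⟩ := h
  have hne : (γ ⁻¹' X).Nonempty := ⟨1, by simpa using hq⟩
  have hcl : IsCompact (γ ⁻¹' X) := (hX.preimage γ.continuous).isCompact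
  obtain ⟨s, hs, hmin⟩ := hcl.exists_isLeast hne
  have hpc : IsPathConnected (Set.Icc (0 : unitInterval) s) := by
    have h1 : IsPathConnected (Set.Icc (0 : ℝ) s) :=
      (convex_Icc _ _).isPathConnected ⟨0, le_rfl, s.2.1⟩
    have h2 : Set.Icc (0 : unitInterval) s = (fun x : ℝ => Set.projIcc 0 1 zero_le_one x) ''
        Set.Icc (0 : ℝ) s := by
      ext x
      constructor
      · intro hx
        exact ⟨x, ⟨x.2.1, hx.2⟩, Set.projIcc_val zero_le_one x⟩
      · rintro ⟨y, hy, rfl⟩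
        refine ⟨Subtype.coe_le_coe.1 (Set.projIcc 0 1 zero_le_one y).2.1, ?_⟩
        have hy1 : y ∈ Set.Icc (0 : ℝ) 1 := ⟨hy.1, hy.2.trans s.2.2⟩
        show Set.projIcc 0 1 zero_le_one y ≤ s
        rw [Set.projIcc_of_mem zero_le_one hy1]
        exact hy.2
    rw [h2]
    exact h1.image continuous_projIcc
  have h3 := hpc.image γ.continuous
  have h4 := h3.joinedIn (γ 0) ⟨0, ⟨le_rfl, bot_le⟩, rfl⟩ (γ s) ⟨s, ⟨bot_le, le_rfl⟩, rfl⟩
  rw [γ.source] at h4
  refine ⟨γ s, ⟨hs, hγ s⟩, h4.mono ?_⟩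
  rintro _ ⟨t, ht, rfl⟩
  by_cases h5 : γ t ∈ X
  · left
    have h6 : s ≤ t := hmin h5
    rw [le_antisymm ht.2 h6]
  · right
    exact ⟨hγ t, h5⟩

/-- arcs from `t` to `b` through a point and the two frames -/
structure Arcs (X : Type) (t b o l r : Pt) (L R : Set Pt) (P : X → Set Pt) (a : X → Pt) :
    Prop where
  Lt : JoinedIn (L \ {b}) t l
  Lb : JoinedIn (L \ {t}) l b
  Rt : JoinedIn (R \ {b}) t r
  Rb : JoinedIn (R \ {t}) r b
  pt : ∀ x, JoinedIn (P x \ {b}) t (a x)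
  pb : ∀ x, JoinedIn (P x \ {t}) (a x) b
  Pc : ∀ x, IsClosed (P x)
  Lc : IsClosed L
  LR : L ∩ R ⊆ {t, b}
  PL : ∀ x, P x ∩ L ⊆ {t, b}
  PR : ∀ x, P x ∩ R ⊆ {t, b}
  PP : ∀ x y, x ≠ y → P x ∩ P y ⊆ {t, b}
  conn : ∀ x, ∀ h ∈ P x \ {t, b}, JoinedIn (P x \ {t, b}) (a x) h
  tie : ∀ x, JoinedIn (L ∪ R)ᶜ o (a x)
  ltie : JoinedIn (insert l (L ∪ R)ᶜ) o l
  rtie : JoinedIn (insert r (L ∪ R)ᶜ) o r

namespace Arcs

variable {X : Type} {t b o l r : Pt} {L R : Set Pt} {P : X → Set Pt} {a : X → Pt}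

theorem tR (H : Arcs X t b o l r L R P a) : t ∈ R := H.Rt.source_mem.1

theorem bR (H : Arcs X t b o l r L R P a) : b ∈ R := H.Rb.target_mem.1

theorem tL (H : Arcs X t b o l r L R P a) : t ∈ L := H.Lt.source_mem.1

theorem bL (H : Arcs X t b o l r L R P a) : b ∈ L := H.Lb.target_mem.1

theorem subR (H : Arcs X t b o l r L R P a) : ({t, b} : Set Pt) ⊆ R := by
  rintro x (rfl | rfl)
  · exact H.tR
  · exact H.bR

theorem subL (H : Arcs X t b o l r L R P a) : ({t, b} : Set Pt) ⊆ L := by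
  rintro x (rfl | rfl)
  · exact H.tL
  · exact H.bL

theorem l_not (H : Arcs X t b o l r L R P a) : l ∉ ({t, b} : Set Pt) := by
  rintro (h | h)
  · exact H.Lb.source_mem.2 h
  · exact H.Lt.target_mem.2 h

theorem r_not (H : Arcs X t b o l r L R P a) : r ∉ ({t, b} : Set Pt) := by
  rintro (h | h)
  · exact H.Rb.source_mem.2 h
  · exact H.Rt.target_mem.2 h

theorem a_not (H : Arcs X t b o l r L R P a) (x : X) : a x ∉ ({t, b} : Set Pt) := by
  rintro (h | h)
  · exact (H.pb x).source_mem.2 h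
  · exact (H.pt x).target_mem.2 h

theorem l_mem (H : Arcs X t b o l r L R P a) : l ∈ L := H.Lt.target_mem.1

theorem r_mem (H : Arcs X t b o l r L R P a) : r ∈ R := H.Rt.target_mem.1

theorem a_mem (H : Arcs X t b o l r L R P a) (x : X) : a x ∈ P x := (H.pt x).target_mem.1

/-- the pillar of `y` avoids the pillar of `x` and the right frame -/
theorem sub (H : Arcs X t b o l r L R P a) {x y : X} (h : x ≠ y) :
    P y \ {t, b} ⊆ (P x ∪ R)ᶜ := by
  rintro z ⟨h1, h2⟩ (h3 | h3)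
  · exact h2 (H.PP x y h ⟨h3, h1⟩)
  · exact h2 (H.PR y ⟨h1, h3⟩)

theorem subL' (H : Arcs X t b o l r L R P a) {x y : X} (h : x ≠ y) :
    P y \ {t, b} ⊆ (P x ∪ L)ᶜ := by
  rintro z ⟨h1, h2⟩ (h3 | h3)
  · exact h2 (H.PP x y h ⟨h3, h1⟩)
  · exact h2 (H.PL y ⟨h1, h3⟩)

/-- `x` is equal to `y` or separates `y` from the left frame -/
def Sep (_ : Arcs X t b o l r L R P a) (x y : X) : Prop := ¬ JoinedIn (P x ∪ R)ᶜ (a y) l

theorem sep_refl (H : Arcs X t b o l r L R P a) (x : X) : H.Sep x x := by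
  intro h
  exact h.source_mem (Or.inl (H.a_mem x))

theorem sep_antisymm (H : Arcs X t b o l r L R P a) {x y : X} (h1 : H.Sep x y)
    (h2 : H.Sep y x) : x = y := by
  by_contra hne
  -- the path from l to a x
  have hl : JoinedIn Rᶜ l o := by
    refine H.ltie.symm.mono ?_
    rintro z (rfl | hz)
    · intro hz
      exact H.l_not (H.LR ⟨H.l_mem, hz⟩)
    · exact fun h => hz (Or.inr h)
  have hx : JoinedIn Rᶜ o (a x) := (H.tie x).mono fun z hz h => hz (Or.inr h)
  obtain ⟨z, ⟨hz, hzR⟩, hj⟩ := first_hit (X := P x ∪ P y) ((H.Pc x).union (H.Pc y))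
    (hl.trans hx) (Or.inl (H.a_mem x))
  have hzn : z ∉ ({t, b} : Set Pt) := fun h => hzR (H.subR h)
  rcases hz with hz | hz
  · -- l ~ a x
    refine h2 (JoinedIn.symm ?_)
    have h3 : JoinedIn (P y ∪ R)ᶜ l z := by
      refine hj.mono ?_
      rintro w (rfl | hw)
      · rintro (h | h)
        · exact hzn (H.PP x y hne ⟨hz, h⟩)
        · exact hzR h
      · rintro (h | h)
        · exact hw.2 (Or.inr h)
        · exact hw.1 h
    exact h3.trans ((H.conn x z ⟨hz, hzn⟩).symm.mono (H.sub (Ne.symm hne)))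
  · refine h1 (JoinedIn.symm ?_)
    have h3 : JoinedIn (P x ∪ R)ᶜ l z := by
      refine hj.mono ?_
      rintro w (rfl | hw)
      · rintro (h | h)
        · exact hzn (H.PP x y hne ⟨h, hz⟩)
        · exact hzR h
      · rintro (h | h)
        · exact hw.2 (Or.inl h)
        · exact hw.1 h
    exact h3.trans ((H.conn y z ⟨hz, hzn⟩).symm.mono (H.sub hne))

theorem sep_trans (H : Arcs X t b o l r L R P a) {x y z : X} (h1 : H.Sep x y)
    (h2 : H.Sep y z) : H.Sep x z := by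
  by_cases hne : x = y
  · rw [hne]
    exact h2
  intro hj
  apply h2
  obtain ⟨γ, hγ⟩ := hj
  by_contra hn
  have : ∃ s, γ s ∈ P y ∪ R := by
    by_contra hs
    push Not at hs
    exact hn ⟨γ, hs⟩
  obtain ⟨s, hs⟩ := this
  have hR : γ s ∉ R := fun h => hγ s (Or.inr h)
  have hP : γ s ∈ P y := hs.resolve_right hR
  have h3 : JoinedIn (P x ∪ R)ᶜ (γ s) l := by
    have h4 : IsPathConnected (γ.extend '' Set.Icc (0 : ℝ) 1) :=
      ((convex_Icc _ _).isPathConnected ⟨0, le_rfl, zero_le_one⟩).image γ.continuous_extend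
    have h5 := h4.joinedIn (γ s) ⟨s, s.2, γ.extend_apply s.2⟩ l ⟨1, ⟨zero_le_one, le_rfl⟩,
      γ.extend_one⟩
    refine h5.mono ?_
    rintro _ ⟨w, hw, rfl⟩
    rw [γ.extend_apply hw]
    exact hγ _
  exact h1 (((H.conn y _ ⟨hP, fun h => hR (H.subR h)⟩).mono (H.sub hne)).trans h3)

/-- STAR for three arcs -/
theorem star3 (hst : StarStmt) {t b o : Pt} {A1 A2 A3 : Set Pt} {a1 a2 a3 : Pt}
    (t1 : JoinedIn (A1 \ {b}) t a1) (t2 : JoinedIn (A2 \ {b}) t a2) (t3 : JoinedIn (A3 \ {b}) t a3)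
    (b1 : JoinedIn (A1 \ {t}) a1 b) (b2 : JoinedIn (A2 \ {t}) a2 b) (b3 : JoinedIn (A3 \ {t}) a3 b)
    (h12 : A1 ∩ A2 ⊆ {t, b}) (h13 : A1 ∩ A3 ⊆ {t, b}) (h23 : A2 ∩ A3 ⊆ {t, b})
    (o1 : JoinedIn (A2 ∪ A3)ᶜ o a1) (o2 : JoinedIn (A1 ∪ A3)ᶜ o a2)
    (o3 : JoinedIn (A1 ∪ A2)ᶜ o a3) : False := by
  refine hst t b o ![A1, A2, A3] ![a1, a2, a3] ?_ ?_ ?_ ?_
  · intro i
    fin_cases i
    · exact t1
    · exact t2
    · exact t3
  · intro i
    fin_cases i
    · exact b1
    · exact b2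
    · exact b3
  · intro i j hij
    fin_cases i <;> fin_cases j <;> first | exact absurd rfl hij | skip
    · exact h12
    · exact h13
    · exact (Set.inter_comm A2 A1).subset.trans h12
    · exact h23
    · exact (Set.inter_comm A3 A1).subset.trans h13
    · exact (Set.inter_comm A3 A2).subset.trans h23
  · intro i
    fin_cases i
    · refine JoinedIn.mono o1 ?_
      intro x hx j hj
      fin_cases j
      · exact absurd rfl hj
      · exact fun h => hx (Or.inl h)
      · exact fun h => hx (Or.inr h)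
    · refine JoinedIn.mono o2 ?_
      intro x hx j hj
      fin_cases j
      · exact fun h => hx (Or.inl h)
      · exact absurd rfl hj
      · exact fun h => hx (Or.inr h)
    · refine JoinedIn.mono o3 ?_
      intro x hx j hj
      fin_cases j
      · exact fun h => hx (Or.inl h)
      · exact fun h => hx (Or.inr h)
      · exact absurd rfl hj

/-- auxiliary case of `sep_total` -/
theorem sep_aux (hst : StarStmt) (H : Arcs X t b o l r L R P a) {x y : X} (hne : x ≠ y)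
    (c2 : JoinedIn (P y ∪ R)ᶜ (a x) l) (c3 : JoinedIn (L ∪ R)ᶜ (a x) (a y))
    {z : Pt} (hz : z ∈ P x) (hzR : z ∉ ({t, b} : Set Pt)) (hj : JoinedIn (P y ∪ L)ᶜ r z) :
    False := by
  have h1 : JoinedIn (P y ∪ L)ᶜ (a x) r :=
    ((H.conn x z ⟨hz, hzR⟩).mono (H.subL' (Ne.symm hne))).trans hj.symm
  refine star3 hst H.Lt (H.pt y) H.Rt H.Lb (H.pb y) H.Rb ?_ H.LR (H.PR y) c2 c3 ?_
  · exact (Set.inter_comm L (P y)).subset.trans (H.PL y)
  · rw [Set.union_comm L (P y)]
    exact h1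

theorem sep_total (hst : StarStmt) (H : Arcs X t b o l r L R P a) (x y : X) :
    H.Sep x y ∨ H.Sep y x := by
  by_cases hne : x = y
  · rw [hne]
    exact Or.inl (H.sep_refl y)
  by_contra hcon
  rw [not_or] at hcon
  obtain ⟨c1, c2⟩ := hcon
  unfold Sep at c1 c2
  rw [not_not] at c1 c2
  have c3 : JoinedIn (L ∪ R)ᶜ (a x) (a y) := (H.tie x).symm.trans (H.tie y)
  have hpath : JoinedIn (insert r (insert l (L ∪ R)ᶜ)) r l := by
    refine JoinedIn.trans (H.rtie.symm.mono ?_) (H.ltie.mono (Set.subset_insert _ _))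
    rintro z (rfl | hz)
    · exact Or.inl rfl
    · exact Or.inr (Or.inr hz)
  obtain ⟨z, ⟨hz, hzY⟩, hj⟩ := first_hit (X := (P x ∪ P y) ∪ L)
    (((H.Pc x).union (H.Pc y)).union H.Lc) hpath (Or.inr H.l_mem)
  have hrn : r ∉ (P x ∪ P y) ∪ L := by
    rintro ((h | h) | h)
    · exact H.r_not (H.PR x ⟨h, H.r_mem⟩)
    · exact H.r_not (H.PR y ⟨h, H.r_mem⟩)
    · exact H.r_not (H.LR ⟨h, H.r_mem⟩)
  have hzr : z ≠ r := fun h => hrn (h ▸ hz)
  have hzn : z ∉ ({t, b} : Set Pt) := by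
    intro h
    rcases hzY with h' | h' | h'
    · exact hzr h'
    · exact H.l_not (h' ▸ h)
    · exact h' (Or.inl (H.subL h))
  -- the path before the hit
  have hmono : ∀ S : Set Pt, S ⊆ (P x ∪ P y) ∪ L → z ∉ S → JoinedIn Sᶜ r z := by
    intro S hS hzS
    refine hj.mono ?_
    rintro w (rfl | hw)
    · exact hzS
    · exact fun h => hw.2 (hS h)
  by_cases hx : z ∈ P x
  · refine sep_aux hst H hne c2 c3 hx hzn (hmono _ ?_ ?_)
    · rintro w (h | h)
      · exact Or.inl (Or.inr h)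
      · exact Or.inr h
    · rintro (h | h)
      · exact hzn (H.PP x y hne ⟨hx, h⟩)
      · exact hzn (H.PL x ⟨hx, h⟩)
  by_cases hy : z ∈ P y
  · refine sep_aux hst H (Ne.symm hne) c1 c3.symm hy hzn (hmono _ ?_ ?_)
    · rintro w (h | h)
      · exact Or.inl (Or.inl h)
      · exact Or.inr h
    · rintro (h | h)
      · exact hx h
      · exact hzn (H.PL y ⟨hy, h⟩)
  -- the first hit is on the left frame
  have hzL : z ∈ L := by
    rcases hz with (h | h) | h
    · exact absurd h hx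
    · exact absurd h hy
    · exact h
  have hzl : z = l := by
    rcases hzY with h' | h' | h'
    · exact absurd h' hzr
    · exact h'
    · exact absurd (Or.inl hzL) h'
  rw [hzl] at hmono hx hy
  refine star3 (o := l) hst (H.pt x) (H.pt y) H.Rt (H.pb x) (H.pb y) H.Rb (H.PP x y hne) (H.PR x)
    (H.PR y) c2.symm c1.symm (hmono _ (fun w h => Or.inl h) ?_).symm
  rintro (h | h)
  · exact hx h
  · exact hy h

/-- the order of the pillars -/
theorem order (hst : StarStmt) [Finite X] (H : Arcs X t b o l r L R P a) :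
    ∃ ρ : X → ℤ, Function.Injective ρ ∧ ∀ x y z, x ≠ y → x ≠ z → y ≠ z →
      JoinedIn (P z ∪ R)ᶜ (a x) (a y) → JoinedIn (P x ∪ R)ᶜ (a z) (a y) →
        (ρ x < ρ y ∧ ρ y < ρ z) ∨ (ρ z < ρ y ∧ ρ y < ρ x) := by
  classical
  have := Fintype.ofFinite X
  let ρ : X → ℤ := fun x => ((Finset.univ.filter fun y => H.Sep y x).card : ℤ)
  have hlt : ∀ x y, x ≠ y → H.Sep x y → ρ x < ρ y := by
    intro x y hne h
    refine Int.ofNat_lt.2 (Finset.card_lt_card ?_)
    rw [Finset.ssubset_iff_of_subset]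
    · refine ⟨y, ?_, ?_⟩
      · simp [H.sep_refl y]
      · simp only [Finset.mem_filter, Finset.mem_univ, true_and]
        intro h'
        exact hne (H.sep_antisymm h h')
    · intro z hz
      simp only [Finset.mem_filter, Finset.mem_univ, true_and] at hz ⊢
      exact H.sep_trans hz h
  refine ⟨ρ, ?_, ?_⟩
  · intro x y hxy
    by_contra hne
    rcases H.sep_total hst x y with h | h
    · exact absurd hxy (hlt x y hne h).ne
    · exact absurd hxy.symm (hlt y x (Ne.symm hne) h).ne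
  · intro x y z hxy hxz hyz h1 h2
    have e1 : H.Sep z x ↔ H.Sep z y := by
      unfold Sep
      rw [not_iff_not]
      exact ⟨fun h => h1.symm.trans h, fun h => h1.trans h⟩
    have e2 : H.Sep x z ↔ H.Sep x y := by
      unfold Sep
      rw [not_iff_not]
      exact ⟨fun h => h2.symm.trans h, fun h => h2.trans h⟩
    by_cases h3 : H.Sep x z
    · left
      refine ⟨hlt x y hxy (e2.1 h3), hlt y z hyz ?_⟩
      rcases H.sep_total hst y z with h | h
      · exact h
      · exact absurd (H.sep_antisymm h3 (e1.2 h)) hxz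
    · right
      have h4 : H.Sep z x := (H.sep_total hst x z).resolve_left h3
      refine ⟨hlt z y hyz.symm (e1.1 h4), hlt y x hxy.symm ?_⟩
      rcases H.sep_total hst y x with h | h
      · exact h
      · exact absurd (e2.2 h) h3

end Arcs

end Pool.Agent.LCR
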