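import Pool.Agent.Helper49_LCR.Defs
import Pool.Agent.Helper88_SO.Base

/-!
# Bundles, the template of a betweenness instance, skeletons

Betweenness instances (`Solvable`, `Distinct3`, `instF`) are those of `Pool.Agent.SO`.
-/

namespace Pool.Agent.LCR

open Pool.Agent.SO (Solvable Distinct3)

/-! ## Bundles -/

/-- A template: a graph (vertices `V`, edges `E` with endpoints `src`, `tgt`) in which the edge `e`
is to be replaced by `w e` parallel paths (strands) with `2 * q e` edges each. -/
structure Bund where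
  V : Type
  E : Type
  src : E → V
  tgt : E → V
  w : E → ℕ
  q : E → ℕ

/-- vertices of the bundle graph: the vertices of the template and the inner vertices
`⟨e, i, k⟩` of the strands -/
abbrev BV (S : Bund) : Type := S.V ⊕ (Σ e : S.E, Fin (S.w e) × Fin (2 * S.q e - 1))

/-- the `k`-th vertex of the `i`-th strand of `e` (`k = 0, …, 2 * q e`) -/
def node (S : Bund) (e : S.E) (i : Fin (S.w e)) (k : ℕ) : BV S :=
  if k = 0 then .inl (S.src e)
  else if h : k - 1 < 2 * S.q e - 1 then .inr ⟨e, i, ⟨k - 1, h⟩⟩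
  else .inl (S.tgt e)

/-- the bundle graph -/
def BG (S : Bund) : SimpleGraph (BV S) :=
  SimpleGraph.fromRel fun a b => ∃ (e : S.E) (i : Fin (S.w e)) (k : ℕ), k < 2 * S.q e ∧
    a = node S e i k ∧ b = node S e i (k + 1)

/-- A skeleton of a drawing of the bundle graph: points `p v` for the vertices of the template and
for each edge `e` a closed set `σ e` (a strand), such that strands of related edges have only the
common endpoints in common. -/
structure Skel (S : Bund) (p : S.V → Pt) (σ : S.E → Set Pt) (Pr : S.E → S.E → Prop) : Prop where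
  inj : Function.Injective p
  closed : ∀ e, IsClosed (σ e)
  src_mem : ∀ e, p (S.src e) ∈ σ e
  tgt_mem : ∀ e, p (S.tgt e) ∈ σ e
  vertex : ∀ e v, p v ∈ σ e → v = S.src e ∨ v = S.tgt e
  join_src : ∀ e, ∀ x ∈ σ e, x ≠ p (S.tgt e) → JoinedIn (σ e \ {p (S.tgt e)}) (p (S.src e)) x
  join_tgt : ∀ e, ∀ x ∈ σ e, x ≠ p (S.src e) → JoinedIn (σ e \ {p (S.src e)}) x (p (S.tgt e))
  join : ∀ e, JoinedIn (σ e) (p (S.src e)) (p (S.tgt e))
  disj : ∀ e f, e ≠ f → Pr e f → ∀ x ∈ σ e ∩ σ f,
    ∃ v, (v = S.src e ∨ v = S.tgt e) ∧ (v = S.src f ∨ v = S.tgt f) ∧ x = p v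

/-! ## Straight drawings of the graph with `w e` strands with two edges -/

/-- positions: of the vertices of the template and of the midpoints of the strands -/
abbrev MV (S : Bund) : Type := S.V ⊕ (Σ e : S.E, Fin (S.w e))

/-- half-strands: `(⟨e, i⟩, false)` joins `src e` to the midpoint, `(⟨e, i⟩, true)` joins the
midpoint to `tgt e` -/
abbrev HS (S : Bund) : Type := (Σ e : S.E, Fin (S.w e)) × Bool

/-- first vertex of a half-strand -/
def hsrc (S : Bund) (h : HS S) : MV S := if h.2 then .inr h.1 else .inl (S.src h.1.1)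

/-- last vertex of a half-strand -/
def htgt (S : Bund) (h : HS S) : MV S := if h.2 then .inl (S.tgt h.1.1) else .inr h.1

/-- the half-strands have no common vertex -/
def Apart (S : Bund) (h h' : HS S) : Prop :=
  hsrc S h ≠ hsrc S h' ∧ hsrc S h ≠ htgt S h' ∧ htgt S h ≠ hsrc S h' ∧ htgt S h ≠ htgt S h'

/-- the segment of a half-strand -/
def hseg (S : Bund) (P : MV S → Pt) (h : HS S) : Set Pt :=
  segment ℝ (P (hsrc S h)) (P (htgt S h))

/-- the half-strands have no common vertex and meet -/
def Crosses (S : Bund) (P : MV S → Pt) (h h' : HS S) : Prop :=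
  Apart S h h' ∧ (hseg S P h ∩ hseg S P h').Nonempty

/-- orientation of three points -/
def ori (p q r : Pt) : ℝ := (q.1 - p.1) * (r.2 - p.2) - (q.2 - p.2) * (r.1 - p.1)

/-- points in general position: distinct, no three collinear, no three segments with six
different endpoints have a common point -/
structure Generic {V : Type} (P : V → Pt) : Prop where
  inj : Function.Injective P
  ori_ne : ∀ a b c, a ≠ b → b ≠ c → a ≠ c → ori (P a) (P b) (P c) ≠ 0
  conc : ∀ a : Fin 6 → V, Function.Injective a →
    segment ℝ (P (a 0)) (P (a 1)) ∩ segment ℝ (P (a 2)) (P (a 3)) ∩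
      segment ℝ (P (a 4)) (P (a 5)) = ∅

/-! ## The template of a betweenness instance -/

/-- vertices of the template: the poles `t`, `b`; for each element `x` and each level `j` the
vertices `A j x`, `B j x` of the pillar of `x`; the vertices `FA j s`, `FB j s` of the left
(`s = false`) and right frame; the hub `u j`, the wall vertex `w j` and the vertices `z j s` of
the blockers of level `j` -/
inductive TV (n m : ℕ) : Type
  | t
  | b
  | A (j : Fin (m + 1)) (x : Fin n)
  | B (j : Fin m) (x : Fin n)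
  | FA (j : Fin (m + 1)) (s : Bool)
  | FB (j : Fin m) (s : Bool)
  | u (j : Fin m)
  | w (j : Fin m)
  | z (j : Fin m) (s : Bool)
  deriving DecidableEq, Fintype

/-- edges of the template -/
inductive TE (n m : ℕ) : Type
  | lo (x : Fin n)
  | hi (x : Fin n)
  | seg (j : Fin m) (x : Fin n)
  | up (j : Fin m) (x : Fin n)
  | flo (s : Bool)
  | fhi (s : Bool)
  | fseg (j : Fin m) (s : Bool)
  | fup (j : Fin m) (s : Bool)
  | wall (j : Fin m) (s : Bool)
  | tie (j : Fin m) (x : Fin n)
  | ftie (j : Fin m) (s : Bool)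
  | wtie (j : Fin m)
  | blk (j : Fin m) (s k : Bool)
  | con (j : Fin m) (s : Bool)
  deriving DecidableEq, Fintype

/-- the first (`s = false`) or last (`s = true`) element of the triple `j` -/
def en {n m : ℕ} (T : Fin m → Fin 3 → Fin n) (j : Fin m) (s : Bool) : Fin n :=
  if s then T j 2 else T j 0

/-- first endpoint -/
def tsrc {n m : ℕ} (T : Fin m → Fin 3 → Fin n) : TE n m → TV n m
  | .lo _ => .t
  | .hi x => .A (Fin.last m) x
  | .seg j x => .A j.castSucc x
  | .up j x => .B j x
  | .flo _ => .t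
  | .fhi s => .FA (Fin.last m) s
  | .fseg j s => .FA j.castSucc s
  | .fup j s => .FB j s
  | .wall j s => .FB j s
  | .tie j _ => .u j
  | .ftie j _ => .u j
  | .wtie j => .u j
  | .blk j s k => if k then .z j s else .A j.castSucc (en T j s)
  | .con j s => .A j.castSucc (en T j s)

/-- second endpoint -/
def ttgt {n m : ℕ} (T : Fin m → Fin 3 → Fin n) : TE n m → TV n m
  | .lo x => .A 0 x
  | .hi _ => .b
  | .seg j x => .B j x
  | .up j x => .A j.succ x
  | .flo s => .FA 0 s
  | .fhi _ => .b
  | .fseg j s => .FB j s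
  | .fup j s => .FA j.succ s
  | .wall j _ => .w j
  | .tie j x => .A j.castSucc x
  | .ftie j s => .FA j.castSucc s
  | .wtie j => .w j
  | .blk j s k => if k then .B j (en T j s) else .z j s
  | .con j _ => .B j (T j 1)

/-- types of edges -/
inductive Ty : Type
  | F | PW | W | P0 | PT | T1 | T2
  deriving DecidableEq, Fintype

/-- type of an edge of the template -/
def ty {n m : ℕ} : TE n m → Ty
  | .lo _ => .F
  | .hi _ => .F
  | .seg _ _ => .PT
  | .up _ _ => .PW
  | .flo _ => .F
  | .fhi _ => .F
  | .fseg _ _ => .F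
  | .fup _ _ => .F
  | .wall _ _ => .W
  | .tie _ _ => .T2
  | .ftie _ _ => .T2
  | .wtie _ => .T2
  | .blk _ _ _ => .P0
  | .con _ _ => .T1

/-- exponent of the number of strands -/
def Ty.a : Ty → ℕ
  | .F => 10
  | .PW => 8
  | .W => 6
  | .P0 => 4
  | .PT => 2
  | .T1 => 0
  | .T2 => 0

/-- exponent of the number of edges of a strand -/
def Ty.c : Ty → ℕ
  | .F => 0
  | .PW => 7
  | .W => 9
  | .P0 => 1
  | .PT => 1
  | .T1 => 3
  | .T2 => 5

/-- edges of these types must not cross -/
def Forb (x y : Ty) : Prop := x.c < y.a ∨ y.c < x.a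

instance (x y : Ty) : Decidable (Forb x y) := inferInstanceAs (Decidable (_ ∨ _))

theorem Forb.symm {x y : Ty} (h : Forb x y) : Forb y x := Or.symm h

theorem Forb.lt : ∀ {x y : Ty}, Forb x y → x.a ≤ y.a → x.c < y.a := by decide

theorem not_forb : ∀ {x y : Ty}, ¬ Forb x y → y.a < x.c := by decide

/-- the template of a betweenness instance with parameter `β` -/
def tmpl {n m : ℕ} (T : Fin m → Fin 3 → Fin n) (β : ℕ) : Bund where
  V := TV n m
  E := TE n m
  src := tsrc T
  tgt := ttgt T
  w := fun e => β ^ (ty e).a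
  q := fun e => β ^ (ty e).c

/-- positions of the vertices of the template; `px x` is the position of the element `x` -/
noncomputable def tpos {n m : ℕ} (T : Fin m → Fin 3 → Fin n) (px : Fin n → ℕ) : TV n m → Pt
  | .t => (0, 0)
  | .b => (0, 3 * m + 2)
  | .A j x => (px x, 3 * (j.val : ℝ) + 1)
  | .B j x => (px x, 3 * (j.val : ℝ) + 2)
  | .FA j s => (if s then (n : ℝ) + 1 else 0, 3 * (j.val : ℝ) + 1)
  | .FB j s => (if s then (n : ℝ) + 1 else 0, 3 * (j.val : ℝ) + 3)
  | .u j => (1 / 2, 3 * (j.val : ℝ) + 3 / 2)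
  | .w j => (1 / 2, 3 * (j.val : ℝ) + 3)
  | .z j s => (px (en T j s) + 1 / 4, 3 * (j.val : ℝ) + 3 / 2)

/-- positions of the elements solving the instance -/
structure GoodPos {n m : ℕ} (T : Fin m → Fin 3 → Fin n) (px : Fin n → ℕ) : Prop where
  inj : Function.Injective px
  pos : ∀ x, 1 ≤ px x
  le : ∀ x, px x ≤ n
  mid : ∀ j, (px (T j 0) < px (T j 1) ∧ px (T j 1) < px (T j 2)) ∨
    (px (T j 2) < px (T j 1) ∧ px (T j 1) < px (T j 0))

end Pool.Agent.LCR
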