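import Pool.Agent.Helper32_HCK.Defs

/-!
# The local crossing number: definitions (MP_759a94_lc)

Drawings of graphs in the plane, the local crossing number, the encoding of graphs by words,
polynomial-time approximation algorithms for the local crossing number.
-/

namespace Pool.Agent.LCR

open Pool.Agent.Helper32_HCK (DecisionProblem)

/-- Points of the plane. -/
abbrev Pt : Type := ℝ × ℝ

/-! ## Drawings -/

/-- `A` is a simple curve joining `p` and `q`. -/
def IsCurve (A : Set Pt) (p q : Pt) : Prop :=
  ∃ γ : ℝ → Pt, ContinuousOn γ (Set.Icc 0 1) ∧ Set.InjOn γ (Set.Icc 0 1) ∧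
    γ 0 = p ∧ γ 1 = q ∧ γ '' Set.Icc 0 1 = A

/-- `A` and `B` cross properly at `p`: a homeomorphism from an open neighbourhood of `p` onto an
open neighbourhood of the origin carries `A` and `B` to the two coordinate axes. -/
def ProperCrossing (A B : Set Pt) (p : Pt) : Prop :=
  ∃ φ : OpenPartialHomeomorph Pt Pt, p ∈ φ.source ∧ φ p = 0 ∧
    ∀ x ∈ φ.source, (x ∈ A ↔ (φ x).2 = 0) ∧ (x ∈ B ↔ (φ x).1 = 0)

/-- A drawing of the graph `G` in the plane: the vertices are distinct points, each edge is a
simple curve joining its endpoints and passing through no other vertex, and any two edges meet in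
finitely many points, each of which is a common endpoint or a proper crossing. -/
structure Drawing {V : Type} (G : SimpleGraph V) where
  /-- the positions of the vertices -/
  pos : V → Pt
  /-- the curves which represent the edges -/
  curve : Sym2 V → Set Pt
  /-- the vertices are distinct points -/
  pos_inj : Function.Injective pos
  /-- edges are simple curves joining their endpoints -/
  isCurve : ∀ u v, G.Adj u v → IsCurve (curve s(u, v)) (pos u) (pos v)
  /-- edges pass through no other vertices -/
  vertex : ∀ e ∈ G.edgeSet, ∀ v, pos v ∈ curve e → v ∈ e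
  /-- two edges meet in finitely many points -/
  finite : ∀ e ∈ G.edgeSet, ∀ f ∈ G.edgeSet, e ≠ f → (curve e ∩ curve f).Finite
  /-- every common point of two edges is a common endpoint or a proper crossing -/
  proper : ∀ e ∈ G.edgeSet, ∀ f ∈ G.edgeSet, e ≠ f → ∀ p ∈ curve e ∩ curve f,
    (∃ v, v ∈ e ∧ v ∈ f ∧ p = pos v) ∨ ProperCrossing (curve e) (curve f) p

/-- The crossings on the edge `e`: all pairs `(f, p)` such that the edge `f ≠ e` crosses `e` at
the point `p` (i.e. `p` is a common point of `e` and `f` which is not a common endpoint). -/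
def Drawing.crossings {V : Type} {G : SimpleGraph V} (D : Drawing G) (e : Sym2 V) :
    Set (Sym2 V × Pt) :=
  {x | x.1 ∈ G.edgeSet ∧ x.1 ≠ e ∧ x.2 ∈ D.curve e ∩ D.curve x.1 ∧
    ¬ ∃ v, v ∈ e ∧ v ∈ x.1 ∧ x.2 = D.pos v}

/-- `G` has a drawing with at most `k` crossings on every edge. -/
def KPlanar {V : Type} (G : SimpleGraph V) (k : ℕ) : Prop :=
  ∃ D : Drawing G, ∀ e ∈ G.edgeSet, (D.crossings e).encard ≤ k

/-- The local crossing number: the least `k` such that `G` is `k`-planar. -/
noncomputable def lcr {V : Type} (G : SimpleGraph V) : ℕ := sInf {k | KPlanar G k}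

/-! ## Encoding and approximation algorithms -/

/-- letters for adjacency matrices -/
inductive GLetter
  | row | one | zero
  deriving DecidableEq, Fintype

open Classical in
/-- The adjacency matrix of a graph on `{0, …, N - 1}`, row by row: for each vertex `i` the letter
`row` followed by the `N` bits `[i ~ 0], …, [i ~ N - 1]`. -/
noncomputable def encGraph (x : Σ N : ℕ, SimpleGraph (Fin N)) : List GLetter :=
  (List.finRange x.1).flatMap fun i =>
    .row :: (List.finRange x.1).map fun k => if x.2.Adj i k then .one else .zero

/-- `A` is a polynomial-time `c`-approximation algorithm for the local crossing number: the map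
`A` from finite graphs (written as adjacency matrices) to natural numbers (written in binary) is
computable in polynomial time and `lcr G ≤ A G ≤ c * lcr G` for all finite graphs `G`. -/
def IsApprox (c : ℝ) (A : (Σ N : ℕ, SimpleGraph (Fin N)) → ℕ) : Prop :=
  Nonempty (Turing.TM2ComputableInPolyTime encGraph Computability.encodeNat A) ∧
    ∀ x, lcr x.2 ≤ A x ∧ (A x : ℝ) ≤ c * lcr x.2

/-- `P` is in P: there is a polynomial-time computable `V` such that `x` is a yes-instance iff
`V x = true`. -/
def InP (P : DecisionProblem) : Prop :=
  ∃ V : P.Inst → Bool, Nonempty (Turing.TM2ComputableInPolyTime P.enc Computability.encodeBool V) ∧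
    ∀ x, P.Yes x ↔ V x = true

end Pool.Agent.LCR
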