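import Pool.Agent.Helper49_LCR.Stmts

/-!
# Every finite graph has a drawing; invariance under isomorphisms
-/

namespace Pool.Agent.LCR

theorem mem_seg {p q x : Pt} (h : x ∈ segment ℝ p q) : ∃ s : ℝ, 0 ≤ s ∧ s ≤ 1 ∧
    x.1 = p.1 + s * (q.1 - p.1) ∧ x.2 = p.2 + s * (q.2 - p.2) := by
  obtain ⟨a, b, ha, hb, hab, rfl⟩ := h
  refine ⟨b, hb, by linarith, ?_, ?_⟩ <;>
    simp only [Prod.fst_add, Prod.snd_add, Prod.smul_fst, Prod.smul_snd, smul_eq_mul] <;>
    · have : a = 1 - b := by linarith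
      rw [this]
      ring

theorem mem_open {p q x : Pt} (h : x ∈ segment ℝ p q) (h1 : x ≠ p) (h2 : x ≠ q) :
    x ∈ openSegment ℝ p q := mem_openSegment_of_ne_left_right h1.symm h2.symm h

theorem Generic.vertex {V : Type} {P : V → Pt} (hP : Generic P) {u v w : V} (huv : u ≠ v)
    (h : P w ∈ segment ℝ (P u) (P v)) : w = u ∨ w = v := by
  by_contra hcon
  rw [not_or] at hcon
  obtain ⟨s, -, -, h1, h2⟩ := mem_seg h
  refine hP.ori_ne u v w huv (Ne.symm hcon.2) (Ne.symm hcon.1) ?_
  unfold ori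
  rw [h1, h2]
  ring

theorem Generic.common {V : Type} {P : V → Pt} (hP : Generic P) {a b c : V} (hab : a ≠ b)
    (hac : a ≠ c) (hbc : b ≠ c) {x : Pt} (h : x ∈ segment ℝ (P a) (P b))
    (h' : x ∈ segment ℝ (P a) (P c)) : x = P a := by
  obtain ⟨s, -, -, h1, h2⟩ := mem_seg h
  obtain ⟨t, -, -, h3, h4⟩ := mem_seg h'
  have h5 : s * t * ori (P a) (P b) (P c) = 0 := by
    have e1 : s * ((P b).1 - (P a).1) = t * ((P c).1 - (P a).1) := by linarith
    have e2 : s * ((P b).2 - (P a).2) = t * ((P c).2 - (P a).2) := by linarith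
    unfold ori
    calc s * t * (((P b).1 - (P a).1) * ((P c).2 - (P a).2) -
          ((P b).2 - (P a).2) * ((P c).1 - (P a).1))
        = (s * ((P b).1 - (P a).1)) * (t * ((P c).2 - (P a).2)) -
          (s * ((P b).2 - (P a).2)) * (t * ((P c).1 - (P a).1)) := by ring
      _ = 0 := by rw [e1, e2]; ring
  have h6 := hP.ori_ne a b c hab hbc hac
  rcases mul_eq_zero.1 h5 with h7 | h7
  · rcases mul_eq_zero.1 h7 with h8 | h8
    · rw [h8] at h1 h2
      exact Prod.ext (by linarith) (by linarith)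
    · rw [h8] at h3 h4
      exact Prod.ext (by linarith) (by linarith)
  · exact absurd h7 h6

theorem Generic.cross {V : Type} {P : V → Pt} (hP : Generic P) {u v x y : V} (huv : u ≠ v)
    (hxy : x ≠ y) (hux : u ≠ x) (huy : u ≠ y) (hvx : v ≠ x) (hvy : v ≠ y) {p : Pt}
    (h : p ∈ segment ℝ (P u) (P v)) (h' : p ∈ segment ℝ (P x) (P y)) :
    p ∈ openSegment ℝ (P u) (P v) ∩ openSegment ℝ (P x) (P y) ∧
      (P v - P u).1 * (P y - P x).2 - (P v - P u).2 * (P y - P x).1 ≠ 0 := by
  refine ⟨⟨mem_open h ?_ ?_, mem_open h' ?_ ?_⟩, ?_⟩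
  · rintro rfl
    rcases hP.vertex hxy h' with h | h
    · exact hux h
    · exact huy h
  · rintro rfl
    rcases hP.vertex hxy h' with h | h
    · exact hvx h
    · exact hvy h
  · rintro rfl
    rcases hP.vertex huv h with h | h
    · exact hux h.symm
    · exact hvx h.symm
  · rintro rfl
    rcases hP.vertex huv h with h | h
    · exact huy h.symm
    · exact hvy h.symm
  · intro h0
    obtain ⟨s, -, -, h1, h2⟩ := mem_seg h
    obtain ⟨t, -, -, h3, h4⟩ := mem_seg h'
    refine hP.ori_ne u v x huv hvx hux ?_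
    simp only [Prod.fst_sub, Prod.snd_sub] at h0
    unfold ori
    have e1 : (P x).1 - (P u).1 = s * ((P v).1 - (P u).1) - t * ((P y).1 - (P x).1) := by linarith
    have e2 : (P x).2 - (P u).2 = s * ((P v).2 - (P u).2) - t * ((P y).2 - (P x).2) := by linarith
    rw [e1, e2]
    linear_combination (-t) * h0

/-- every finite graph has a drawing -/
theorem exists_kplanar (hGen : GenStmt) (hSeg : SegStmt) {V : Type} [Finite V]
    (G : SimpleGraph V) : ∃ k, KPlanar G k := by
  classical
  have := Fintype.ofFinite V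
  obtain ⟨P, -, hP⟩ := hGen V (fun _ => 0) 1 one_pos
  refine ⟨Fintype.card (Sym2 V), hSeg V G P _ hP.inj ?_ ?_ ?_⟩
  · intro u v w huv hw
    exact hP.vertex huv.ne hw
  · intro u v x y huv hxy hne p hp
    have h1 := huv.ne
    have h2 := hxy.ne
    by_cases hux : u = x
    · subst hux
      left
      have hvy : v ≠ y := fun h => hne (by rw [h])
      exact ⟨u, Or.inl rfl, Or.inl rfl, hP.common h1 h2 hvy hp.1 hp.2⟩
    by_cases huy : u = y
    · subst huy
      left
      have hvx : v ≠ x := fun h => hne (by rw [h, Sym2.eq_swap])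
      refine ⟨u, Or.inl rfl, Or.inr rfl, hP.common h1 h2.symm hvx hp.1 ?_⟩
      rw [segment_symm]
      exact hp.2
    by_cases hvx : v = x
    · subst hvx
      left
      refine ⟨v, Or.inr rfl, Or.inl rfl, hP.common h1.symm h2 huy ?_ hp.2⟩
      rw [segment_symm]
      exact hp.1
    by_cases hvy : v = y
    · subst hvy
      left
      refine ⟨v, Or.inr rfl, Or.inr rfl, hP.common h1.symm h2.symm hux ?_ ?_⟩
      · rw [segment_symm]
        exact hp.1
      · rw [segment_symm]
        exact hp.2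
    right
    exact hP.cross h1 h2 hux huy hvx hvy hp.1 hp.2
  · intro u v _
    refine (Set.encard_le_encard (Set.subset_univ _)).trans ?_
    rw [Set.encard_univ, ENat.card_eq_coe_fintype_card]

/-- more crossings are allowed -/
theorem KPlanar.mono {V : Type} {G : SimpleGraph V} {k l : ℕ} (h : KPlanar G k) (hkl : k ≤ l) :
    KPlanar G l := by
  obtain ⟨D, hD⟩ := h
  exact ⟨D, fun e he => (hD e he).trans (by exact_mod_cast hkl)⟩

/-- invariance under isomorphisms -/
theorem KPlanar.congr {V W : Type} {G : SimpleGraph V} {H : SimpleGraph W} (φ : H ≃g G) {k : ℕ}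
    (h : KPlanar G k) : KPlanar H k := by
  obtain ⟨D, hD⟩ := h
  have hφ : Function.Injective φ := φ.injective
  have hmap : ∀ e, e ∈ H.edgeSet → e.map φ ∈ G.edgeSet := by
    intro e
    induction e with
    | _ u v => exact fun h => φ.map_adj_iff.2 h
  have hminj : Function.Injective (Sym2.map φ) := Sym2.map.injective hφ
  have hmem : ∀ (e : Sym2 W) (v : W), φ v ∈ e.map φ ↔ v ∈ e := by
    intro e v
    rw [Sym2.mem_map]
    exact ⟨fun ⟨a, ha, hav⟩ => hφ hav ▸ ha, fun h => ⟨v, h, rfl⟩⟩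
  let D' : Drawing H :=
    { pos := fun w => D.pos (φ w)
      curve := fun e => D.curve (e.map φ)
      pos_inj := D.pos_inj.comp hφ
      isCurve := fun u v huv => D.isCurve _ _ (φ.map_adj_iff.2 huv)
      vertex := fun e he v hv => (hmem e v).1 (D.vertex _ (hmap e he) _ hv)
      finite := fun e he f hf hef => D.finite _ (hmap e he) _ (hmap f hf) fun h => hef (hminj h)
      proper := fun e he f hf hef p hp => by
        rcases D.proper _ (hmap e he) _ (hmap f hf) (fun h => hef (hminj h)) p hp with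
          ⟨v, h1, h2, h3⟩ | h
        · left
          obtain ⟨w, rfl⟩ := φ.surjective v
          exact ⟨w, (hmem e w).1 h1, (hmem f w).1 h2, h3⟩
        · exact Or.inr h }
  refine ⟨D', fun e he => le_trans ?_ (hD _ (hmap e he))⟩
  have hinj : Function.Injective fun x : Sym2 W × Pt => (x.1.map φ, x.2) := by
    rintro ⟨a, p⟩ ⟨b, q⟩ h
    simp only [Prod.mk.injEq] at h
    rw [hminj h.1, h.2]
  rw [← hinj.encard_image]
  refine Set.encard_le_encard ?_
  rintro _ ⟨⟨f, p⟩, ⟨h1, h2, h3, h4⟩, rfl⟩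
  refine ⟨hmap f h1, fun h => h2 (hminj h), h3, ?_⟩
  rintro ⟨v, h5, h6, h7⟩
  obtain ⟨w, rfl⟩ := φ.surjective v
  exact h4 ⟨w, (hmem e w).1 h5, (hmem f w).1 h6, h7⟩

/-- the local crossing number in terms of `KPlanar` -/
theorem lcr_le_iff (hGen : GenStmt) (hSeg : SegStmt) {V : Type} [Finite V]
    (G : SimpleGraph V) (k : ℕ) : lcr G ≤ k ↔ KPlanar G k := by
  constructor
  · intro h
    have h1 : KPlanar G (lcr G) := Nat.sInf_mem (s := {k | KPlanar G k}) (exists_kplanar hGen hSeg G)
    exact h1.mono h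
  · intro h
    exact Nat.sInf_le h

end Pool.Agent.LCR
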