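import Pool.Agent.Helper49_LCR.Main
import Pool.Agent.Helper49_LCR.Exist
import Pool.Agent.Helper92_SO.Kred
import Pool.Agent.Common_CookLevin.CookLevin

/-!
# Assembly
-/

namespace Pool.Agent.LCR

open Pool.Agent.SO (Solvable Distinct3 instF triples wordT letterT)
open Pool.Agent.Common_CookLevin (CNF encodeCNF CNFLetter satProblem sat_hard)
open Pool.Agent.Helper32_HCK (DecisionProblem InNP PolyReduces languageProblem)
open Pool.Agent.Helper32_Poly

theorem length_wordT (M : ℕ) : ∀ (u : List CNFLetter) (p k : ℕ), (wordT M p k u).length = 2 * u.length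
  | [], _, _ => rfl
  | c :: u, p, k => by
    rw [wordT, List.length_append, length_wordT M u, List.length_cons]
    cases c <;> simp [letterT] <;> ring

theorem length_triples (u : List CNFLetter) : (triples u).length = 9 * u.length + 3 := by
  unfold triples
  simp only [List.length_append, List.length_map, List.length_range, List.length_cons,
    List.length_flatMap, List.length_nil, length_wordT, List.map_const', List.sum_replicate,
    smul_eq_mul]
  omega

theorem big (C M N : ℕ) (hN : N ≤ 3024 * (M + 1) ^ 2) :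
    4 * (2 * N) ^ 17 * (C + 1) ≤ (6048 * (C + 1) * (M + 1)) ^ 36 := by
  have h1 : 2 * N ≤ (6048 * (M + 1)) ^ 2 := by nlinarith [sq_nonneg (M + 1)]
  have h2 : 2 ^ 2 ≤ (6048 * (M + 1)) ^ 2 := Nat.pow_le_pow_left (by omega) _
  have h3 : C + 1 ≤ (C + 1) ^ 36 := Nat.le_self_pow (by norm_num) _
  calc 4 * (2 * N) ^ 17 * (C + 1) ≤ (6048 * (M + 1)) ^ 2 * ((6048 * (M + 1)) ^ 2) ^ 17 * (C + 1) ^ 36 :=
        Nat.mul_le_mul (Nat.mul_le_mul h2 (Nat.pow_le_pow_left h1 _)) h3
    _ = (6048 * (C + 1) * (M + 1)) ^ 36 := by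
        rw [mul_right_comm 6048 (C + 1) (M + 1), mul_pow _ (C + 1) 36, ← pow_mul, ← pow_add]

/-- positions from a solution -/
theorem goodPos {n m : ℕ} (T : Fin m → Fin 3 → Fin n) (h : Solvable T) :
    ∃ px, GoodPos T px := by
  classical
  obtain ⟨r, hr, hb⟩ := h
  let px : Fin n → ℕ := fun x => (Finset.univ.filter fun y => r y < r x).card + 1
  have hmono : ∀ x y, r x < r y → px x < px y := by
    intro x y hxy
    refine Nat.succ_lt_succ (Finset.card_lt_card ?_)
    rw [Finset.ssubset_iff_of_subset]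
    · refine ⟨x, ?_, ?_⟩
      · simp [hxy]
      · simp
    · intro z hz
      simp only [Finset.mem_filter, Finset.mem_univ, true_and] at hz ⊢
      exact hz.trans hxy
  refine ⟨px, ⟨?_, fun x => Nat.succ_le_succ (Nat.zero_le _), ?_, ?_⟩⟩
  · intro x y hxy
    apply hr
    rcases lt_trichotomy (r x) (r y) with h | h | h
    · exact absurd hxy (hmono x y h).ne
    · exact h
    · exact absurd hxy (hmono y x h).ne'
  · intro x
    have h1 : (Finset.univ.filter fun y => r y < r x) ⊂ Finset.univ := by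
      rw [Finset.ssubset_univ_iff]
      intro h2
      have h3 : x ∈ (Finset.univ.filter fun y => r y < r x) := by
        rw [h2]
        exact Finset.mem_univ _
      simp at h3
    have h2 := Finset.card_lt_card h1
    rw [Finset.card_univ, Fintype.card_fin] at h2
    exact h2
  · intro j
    rcases hb j with h | h
    · exact Or.inl ⟨hmono _ _ h.1, hmono _ _ h.2⟩
    · exact Or.inr ⟨hmono _ _ h.1, hmono _ _ h.2⟩

/-- the two cases -/
theorem gap_graph (hSel : SelStmt) (hOrd : OrdStmt) (hSub : SubStmt) (hMid : MidStmt)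
    (hTpl : TplStmt) (hGen : GenStmt) (hSeg : SegStmt) {n m : ℕ} (T : Fin m → Fin 3 → Fin n)
    (hT : Distinct3 T) (N C β k : ℕ) (G : SimpleGraph (Fin k)) (φ : G ≃g BG (tmpl T β))
    (hN : N = 56 * ((n + 1) * (m + 1))) (hb1 : 4 * (2 * N) * (C + 1) ≤ β)
    (hb2 : 4 * (2 * N) ^ 17 ≤ β) :
    (Solvable T → lcr G ≤ 1) ∧ (¬ Solvable T → C < lcr G ∧ k < lcr G ^ 16) := by
  have hN0 : 0 < N := by
    rw [hN]
    positivity
  have hcard : Fintype.card (TE n m) ≤ N := hN ▸ card_TE
  have hβ0 : 0 < β := by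
    have : 0 < 4 * (2 * N) * (C + 1) := by positivity
    omega
  constructor
  · intro hy
    rw [lcr_le_iff hGen hSeg]
    obtain ⟨px, hpx⟩ := goodPos T hy
    refine (complete hSub hMid hTpl T px hpx β hβ0 ?_).congr φ
    have : 2 * N ≤ 4 * (2 * N) * (C + 1) := by nlinarith
    omega
  · intro hn
    -- the local crossing number is at least β / (2 N)
    have hlow : β ≤ 2 * N * lcr G := by
      by_contra hcon
      rw [not_le] at hcon
      have h1 : KPlanar G (lcr G) := (lcr_le_iff hGen hSeg _ _).1 le_rfl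
      refine hn (sound hSel hOrd T hT β (lcr G) ?_ (h1.congr φ.symm))
      exact (Nat.mul_le_mul_right _ (Nat.mul_le_mul_left 2 hcard)).trans_lt hcon
    constructor
    · by_contra hcon
      rw [not_lt] at hcon
      have h1 : 2 * N * lcr G ≤ 2 * N * C := Nat.mul_le_mul_left _ hcon
      nlinarith
    · have hV : k ≤ 3 * N * β ^ 15 := by
        have h1 := card_BV T β hβ0
        have h2 : k = Nat.card (BV (tmpl T β)) := by
          rw [← Nat.card_congr φ.toEquiv, Nat.card_fin]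
        rw [h2, hN]
        exact h1
      have h3 : (2 * N) ^ 16 * k < (2 * N) ^ 16 * lcr G ^ 16 := by
        calc (2 * N) ^ 16 * k ≤ (2 * N) ^ 16 * (3 * N * β ^ 15) := Nat.mul_le_mul_left _ hV
          _ ≤ 2 * (2 * N) ^ 17 * β ^ 15 := by
              have : (2 * N) ^ 16 * (3 * N * β ^ 15) = (2 * N) ^ 16 * β ^ 15 * (3 * N) := by ring
              rw [this]
              have : 2 * (2 * N) ^ 17 * β ^ 15 = (2 * N) ^ 16 * β ^ 15 * (4 * N) := by ring
              rw [this]
              exact Nat.mul_le_mul_left _ (by omega)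
          _ < β * β ^ 15 := by
              refine Nat.mul_lt_mul_of_pos_right ?_ (Nat.pow_pos hβ0)
              have h4 : 0 < (2 * N) ^ 17 := Nat.pow_pos (by omega)
              generalize (2 * N) ^ 17 = z at h4 hb2 ⊢
              omega
          _ = β ^ 16 := by ring
          _ ≤ (2 * N * lcr G) ^ 16 := Nat.pow_le_pow_left hlow _
          _ = (2 * N) ^ 16 * lcr G ^ 16 := by rw [mul_pow]
      exact Nat.lt_of_mul_lt_mul_left h3

/-- the reduction from satisfiability -/
theorem gap (hSel : SelStmt) (hOrd : OrdStmt) (hSub : SubStmt) (hMid : MidStmt) (hTpl : TplStmt)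
    (hPoly : PolyStmt) (hGen : GenStmt) (hSeg : SegStmt) (hK : Pool.Agent.SO.KredStmt) (C : ℕ) :
    ∃ f : CNF → Σ N : ℕ, SimpleGraph (Fin N),
      Nonempty (Turing.TM2ComputableInPolyTime encodeCNF encGraph f) ∧
      ∀ F, (satProblem.Yes F → lcr (f F).2 ≤ 1) ∧
        (¬ satProblem.Yes F → C < lcr (f F).2 ∧ (f F).1 < lcr (f F).2 ^ 16) := by
  obtain ⟨f, hf1, hf2⟩ := hPoly (6048 * (C + 1)) 36
  refine ⟨f, hf2, fun F => ?_⟩
  obtain ⟨φ⟩ := hf1 F
  have hm : (triples (encodeCNF F).reverse).length = 9 * (encodeCNF F).length + 3 := by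
    rw [length_triples, List.length_reverse]
  have hNM : 56 * ((6 * (encodeCNF F).length + 3 + 1 + 1) *
      ((triples (encodeCNF F).reverse).length + 1)) ≤ 3024 * ((encodeCNF F).length + 1) ^ 2 := by
    rw [hm]
    generalize (encodeCNF F).length = M
    nlinarith
  obtain ⟨N, hN⟩ : ∃ N, N = 56 * ((6 * (encodeCNF F).length + 3 + 1 + 1) *
      ((triples (encodeCNF F).reverse).length + 1)) := ⟨_, rfl⟩
  rw [← hN] at hNM
  have hN0 : 0 < N := by
    rw [hN]
    positivity
  have hbig := big C (encodeCNF F).length N hNM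
  have hb1 : 4 * (2 * N) * (C + 1) ≤ (6048 * (C + 1) * ((encodeCNF F).length + 1)) ^ 36 := by
    refine le_trans ?_ hbig
    have : (2 * N) ≤ (2 * N) ^ 17 := Nat.le_self_pow (by norm_num) _
    exact Nat.mul_le_mul_right _ (Nat.mul_le_mul_left _ this)
  have hb2 : 4 * (2 * N) ^ 17 ≤ (6048 * (C + 1) * ((encodeCNF F).length + 1)) ^ 36 := by
    refine le_trans ?_ hbig
    exact Nat.le_mul_of_pos_right _ (Nat.succ_pos C)
  have h := gap_graph hSel hOrd hSub hMid hTpl hGen hSeg (instF F) (hK F).1 N C _ _ (f F).2 φ hN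
    hb1 hb2
  exact ⟨fun hy => h.1 ((hK F).2.2 hy), fun hy => h.2 fun h' => hy ((hK F).2.1 h')⟩

/-- the main theorem -/
theorem final (hSel : SelStmt) (hOrd : OrdStmt) (hSub : SubStmt) (hMid : MidStmt) (hTpl : TplStmt)
    (hPoly : PolyStmt) (hGen : GenStmt) (hSeg : SegStmt) (hK : Pool.Agent.SO.KredStmt)
    (hDec : DecStmt) :
    (∀ L : Set (List Bool), InNP (languageProblem L) → ∀ C : ℕ,
      ∃ f : List Bool → Σ N : ℕ, SimpleGraph (Fin N),
        Nonempty (Turing.TM2ComputableInPolyTime (id : List Bool → List Bool) encGraph f) ∧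
        ∀ x, (x ∈ L → lcr (f x).2 ≤ 1) ∧
          (x ∉ L → C < lcr (f x).2 ∧ (f x).1 < lcr (f x).2 ^ 16)) ∧
    ((∃ c A, IsApprox c A) → ∀ L : Set (List Bool), InNP (languageProblem L) →
      InP (languageProblem L)) := by
  have h1 : ∀ L : Set (List Bool), InNP (languageProblem L) → ∀ C : ℕ,
      ∃ f : List Bool → Σ N : ℕ, SimpleGraph (Fin N),
        Nonempty (Turing.TM2ComputableInPolyTime (id : List Bool → List Bool) encGraph f) ∧
        ∀ x, (x ∈ L → lcr (f x).2 ≤ 1) ∧
          (x ∉ L → C < lcr (f x).2 ∧ (f x).1 < lcr (f x).2 ^ 16) := by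
    intro L hL C
    obtain ⟨g, ⟨hg⟩, hg2⟩ := sat_hard L hL
    obtain ⟨f, ⟨hf⟩, hf2⟩ := gap hSel hOrd hSub hMid hTpl hPoly hGen hSeg hK C
    refine ⟨f ∘ g, TM2ComputableInPolyTime.comp hg hf, fun x => ?_⟩
    exact ⟨fun hx => (hf2 (g x)).1 ((hg2 x).1 hx), fun hx => (hf2 (g x)).2 fun h =>
      hx ((hg2 x).2 h)⟩
  refine ⟨h1, ?_⟩
  rintro ⟨c, A, hA, hA2⟩ L hL
  obtain ⟨f, hf, hf2⟩ := h1 L hL ⌈c⌉₊
  refine ⟨fun x => decide (A (f x) ≤ ⌈c⌉₊), hDec ⌈c⌉₊ A f hA hf, fun x => ?_⟩
  show x ∈ L ↔ _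
  rw [decide_eq_true_iff]
  constructor
  · intro hx
    have h2 := (hf2 x).1 hx
    have h3 := (hA2 (f x)).2
    have h4 : (A (f x) : ℝ) ≤ (⌈c⌉₊ : ℝ) := by
      have h5 : c ≤ ⌈c⌉₊ := Nat.le_ceil c
      have h6 : (0 : ℝ) ≤ ⌈c⌉₊ := Nat.cast_nonneg _
      have h7 : (lcr (f x).2 : ℝ) ≤ 1 := by exact_mod_cast h2
      have h8 : (0 : ℝ) ≤ (lcr (f x).2 : ℝ) := Nat.cast_nonneg _
      nlinarith
    exact_mod_cast h4
  · intro hx
    by_contra hn
    have h2 := ((hf2 x).2 hn).1
    have h3 := (hA2 (f x)).1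
    omega

end Pool.Agent.LCR
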