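import Pool.Agent.Helper49_LCR.Stmts

/-!
# Soundness and completeness of the reduction, numbers of vertices and edges
-/

namespace Pool.Agent.LCR

open Pool.Agent.SO (Solvable Distinct3)

variable {n m : ℕ}

theorem tsrc_ne_ttgt (T : Fin m → Fin 3 → Fin n) (e : TE n m) : tsrc T e ≠ ttgt T e := by
  cases e with
  | blk j s k => cases k <;> simp [tsrc, ttgt]
  | _ => simp [tsrc, ttgt]

/-- a drawing with few crossings gives a solution -/
theorem sound (hSel : SelStmt) (hOrd : OrdStmt) (T : Fin m → Fin 3 → Fin n) (hT : Distinct3 T)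
    (β C : ℕ) (hβ : 2 * Fintype.card (TE n m) * C < β) (h : KPlanar (BG (tmpl T β)) C) :
    Solvable T := by
  obtain ⟨D, hD⟩ := h
  have hβ0 : 0 < β := by omega
  have : Fintype (tmpl T β).E := inferInstanceAs (Fintype (TE n m))
  have hcard : Fintype.card (tmpl T β).E = Fintype.card (TE n m) :=
    @Fintype.card_congr (tmpl T β).E (TE n m) _ _ (Equiv.refl _)
  obtain ⟨σ, hσ⟩ := hSel (tmpl T β) (fun e => (ty e).a) (fun e f => Forb (ty e) (ty f)) C
    (tsrc_ne_ttgt T) (fun e => Nat.pow_pos hβ0) (fun e => Nat.pow_pos hβ0)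
    (fun e f => Forb.symm) (fun e f _ hF ha => by
      rw [hcard]
      have h1 := hF.lt ha
      show Fintype.card (TE n m) * (2 * β ^ (ty e).c * C) < β ^ (ty f).a
      obtain ⟨d, hd⟩ : ∃ d, (ty f).a = d + 1 := ⟨(ty f).a - 1, by omega⟩
      have h2 : β ^ (ty e).c ≤ β ^ d := Nat.pow_le_pow_right hβ0 (by omega)
      rw [hd, pow_succ]
      calc Fintype.card (TE n m) * (2 * β ^ (ty e).c * C)
          = β ^ (ty e).c * (2 * Fintype.card (TE n m) * C) := by ring
        _ ≤ β ^ d * (2 * Fintype.card (TE n m) * C) := Nat.mul_le_mul_right _ h2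
        _ < β ^ d * β := Nat.mul_lt_mul_of_pos_left hβ (Nat.pow_pos hβ0)) D hD
  exact hOrd n m T β hT _ σ hσ

/-- a solution gives a drawing with at most one crossing on each edge -/
theorem complete (hSub : SubStmt) (hMid : MidStmt) (hTpl : TplStmt) (T : Fin m → Fin 3 → Fin n)
    (px : Fin n → ℕ) (hp : GoodPos T px) (β : ℕ) (hβ0 : 0 < β)
    (hβ : 2 * Fintype.card (TE n m) ≤ β) : KPlanar (BG (tmpl T β)) 1 := by
  classical
  have i1 : Fintype (tmpl T β).E := inferInstanceAs (Fintype (TE n m))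
  have i2 : Finite (tmpl T β).V := inferInstanceAs (Finite (TV n m))
  obtain ⟨t1, t2⟩ := hTpl n m T px hp
  obtain ⟨P, hP, hP'⟩ := hMid (tmpl T β) (tsrc_ne_ttgt T) (tpos T px)
    (fun e f => Forb (ty e) (ty f)) t1 t2
  refine hSub (tmpl T β) (tsrc_ne_ttgt T) (fun e => Nat.pow_pos hβ0) P hP ?_
  intro h
  -- crossing half-strands are not forbidden
  have h1 : {h' | Crosses (tmpl T β) P h h'} ⊆
      ((Finset.univ.filter fun h' : HS (tmpl T β) => (ty h'.1.1).a < (ty h.1.1).c :
        Finset (HS (tmpl T β))) : Set (HS (tmpl T β))) := by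
    rintro h' ⟨h2, h3⟩
    simp only [Finset.coe_filter, Finset.mem_univ, true_and, Set.mem_ofPred_eq]
    refine not_forb fun hF => ?_
    have h4 := hP' h h' hF h2
    exact Set.not_disjoint_iff_nonempty_inter.2 h3 h4
  refine (Set.encard_le_encard h1).trans ?_
  rw [Set.encard_coe_eq_coe_finsetCard]
  norm_cast
  show _ ≤ β ^ (ty h.1.1).c
  -- count
  by_cases hc : (ty h.1.1).c = 0
  · have : (Finset.univ.filter fun h' : HS (tmpl T β) => (ty h'.1.1).a < (ty h.1.1).c) = ∅ := by
      rw [Finset.filter_eq_empty_iff]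
      intro x _
      omega
    rw [this]
    exact Nat.zero_le _
  obtain ⟨d, hd⟩ : ∃ d, (ty h.1.1).c = d + 1 := ⟨(ty h.1.1).c - 1, by omega⟩
  have h2 : (Finset.univ.filter fun h' : HS (tmpl T β) => (ty h'.1.1).a < (ty h.1.1).c).card ≤
      (Finset.univ : Finset (TE n m × Fin (β ^ d) × Bool)).card := by
    refine Finset.card_le_card_of_injOn
      (fun h' => (h'.1.1, ⟨h'.1.2.val % β ^ d, Nat.mod_lt _ (Nat.pow_pos hβ0)⟩, h'.2))
      (fun _ _ => Finset.mem_coe.2 (Finset.mem_univ _)) ?_
    rintro ⟨⟨e, i⟩, b⟩ h5 ⟨⟨f, j⟩, b'⟩ h6 heq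
    simp only [Finset.coe_filter, Finset.mem_univ, true_and, Set.mem_ofPred_eq] at h5 h6
    simp only [Prod.mk.injEq, Fin.mk.injEq] at heq
    obtain ⟨h7, h8, h9⟩ := heq
    subst h7 h9
    have key : ∀ i : Fin ((tmpl T β).w e), i.val < β ^ d := fun i =>
      i.2.trans_le (Nat.pow_le_pow_right hβ0 (by omega))
    rw [Nat.mod_eq_of_lt (key i), Nat.mod_eq_of_lt (key j)] at h8
    rw [Fin.ext h8]
  refine h2.trans ?_
  rw [Finset.card_univ, Fintype.card_prod, Fintype.card_prod, Fintype.card_fin, Fintype.card_bool,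
    hd, pow_succ]
  calc Fintype.card (TE n m) * (β ^ d * 2) = β ^ d * (2 * Fintype.card (TE n m)) := by ring
    _ ≤ β ^ d * β := Nat.mul_le_mul_left _ hβ

/-! ## Numbers -/

/-- the number of edges of the template -/
theorem card_TE : Fintype.card (TE n m) ≤ 56 * ((n + 1) * (m + 1)) := by
  let f : TE n m → Fin 14 × Bool × Bool × Fin (n + 1) × Fin (m + 1) := fun e => match e with
    | .lo x => (0, false, false, x.castSucc, 0)
    | .hi x => (1, false, false, x.castSucc, 0)
    | .seg j x => (2, false, false, x.castSucc, j.castSucc)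
    | .up j x => (3, false, false, x.castSucc, j.castSucc)
    | .flo s => (4, s, false, 0, 0)
    | .fhi s => (5, s, false, 0, 0)
    | .fseg j s => (6, s, false, 0, j.castSucc)
    | .fup j s => (7, s, false, 0, j.castSucc)
    | .wall j s => (8, s, false, 0, j.castSucc)
    | .tie j x => (9, false, false, x.castSucc, j.castSucc)
    | .ftie j s => (10, s, false, 0, j.castSucc)
    | .wtie j => (11, false, false, 0, j.castSucc)
    | .blk j s k => (12, s, k, 0, j.castSucc)
    | .con j s => (13, s, false, 0, j.castSucc)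
  have hf : Function.Injective f := by
    intro e e' h
    cases e <;> cases e' <;> simp_all [f]
  have := Fintype.card_le_of_injective f hf
  simp only [Fintype.card_prod, Fintype.card_fin, Fintype.card_bool] at this
  calc Fintype.card (TE n m) ≤ _ := this
    _ = 56 * ((n + 1) * (m + 1)) := by ring

/-- the number of vertices of the template -/
theorem card_TV : Fintype.card (TV n m) ≤ 18 * ((n + 1) * (m + 1)) := by
  let f : TV n m → Fin 9 × Bool × Fin (n + 1) × Fin (m + 1) := fun e => match e with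
    | .t => (0, false, 0, 0)
    | .b => (1, false, 0, 0)
    | .A j x => (2, false, x.castSucc, j)
    | .B j x => (3, false, x.castSucc, j.castSucc)
    | .FA j s => (4, s, 0, j)
    | .FB j s => (5, s, 0, j.castSucc)
    | .u j => (6, false, 0, j.castSucc)
    | .w j => (7, false, 0, j.castSucc)
    | .z j s => (8, s, 0, j.castSucc)
  have hf : Function.Injective f := by
    intro e e' h
    cases e <;> cases e' <;> simp_all [f]
  have := Fintype.card_le_of_injective f hf
  simp only [Fintype.card_prod, Fintype.card_fin, Fintype.card_bool] at this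
  calc Fintype.card (TV n m) ≤ _ := this
    _ = 18 * ((n + 1) * (m + 1)) := by ring

theorem ac_le (x : Ty) : x.a + x.c ≤ 15 := by
  cases x <;> decide

/-- the number of vertices of the bundle graph -/
theorem card_BV (T : Fin m → Fin 3 → Fin n) (β : ℕ) (hβ0 : 0 < β) :
    Nat.card (BV (tmpl T β)) ≤ 3 * (56 * ((n + 1) * (m + 1))) * β ^ 15 := by
  classical
  have i1 : Fintype (tmpl T β).E := inferInstanceAs (Fintype (TE n m))
  have i2 : Fintype (tmpl T β).V := inferInstanceAs (Fintype (TV n m))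
  rw [Nat.card_eq_fintype_card, Fintype.card_sum, Fintype.card_sigma]
  have h1 : ∀ e : (tmpl T β).E, Fintype.card (Fin ((tmpl T β).w e) × Fin (2 * (tmpl T β).q e - 1)) ≤
      2 * β ^ 15 := by
    intro e
    rw [Fintype.card_prod, Fintype.card_fin, Fintype.card_fin]
    show β ^ (ty e).a * (2 * β ^ (ty e).c - 1) ≤ 2 * β ^ 15
    calc β ^ (ty e).a * (2 * β ^ (ty e).c - 1) ≤ β ^ (ty e).a * (2 * β ^ (ty e).c) :=
          Nat.mul_le_mul_left _ (Nat.sub_le _ _)
      _ = 2 * β ^ ((ty e).a + (ty e).c) := by rw [pow_add]; ring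
      _ ≤ 2 * β ^ 15 := Nat.mul_le_mul_left _ (Nat.pow_le_pow_right hβ0 (ac_le _))
  have h2 := Finset.sum_le_card_nsmul (Finset.univ : Finset (tmpl T β).E) _ _ (fun e _ => h1 e)
  rw [Finset.card_univ, smul_eq_mul] at h2
  have h3 : Fintype.card (tmpl T β).E ≤ 56 * ((n + 1) * (m + 1)) :=
    (@Fintype.card_congr (tmpl T β).E (TE n m) _ _ (Equiv.refl _)).trans_le card_TE
  have h4 : Fintype.card (tmpl T β).V ≤ 18 * ((n + 1) * (m + 1)) :=
    (@Fintype.card_congr (tmpl T β).V (TV n m) _ _ (Equiv.refl _)).trans_le card_TV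
  have h5 : 1 ≤ β ^ 15 := Nat.pow_pos hβ0
  calc _ ≤ 18 * ((n + 1) * (m + 1)) + Fintype.card (tmpl T β).E * (2 * β ^ 15) := add_le_add h4 h2
    _ ≤ 18 * ((n + 1) * (m + 1)) * β ^ 15 + 56 * ((n + 1) * (m + 1)) * (2 * β ^ 15) :=
        add_le_add (Nat.le_mul_of_pos_right _ h5) (Nat.mul_le_mul_right _ h3)
    _ ≤ 3 * (56 * ((n + 1) * (m + 1))) * β ^ 15 := by
        have := Nat.zero_le ((n + 1) * (m + 1) * β ^ 15)
        nlinarith

end Pool.Agent.LCR
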