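import Pool.Agent.Helper49_LCR.Stmts

/-!
# STAR from K33
-/

namespace Pool.Agent.LCR

theorem star (h33 : K33Stmt) : StarStmt := by
  intro P Q o α a h1 h2 h3 h4
  choose g1 hg1 using h1
  choose g2 hg2 using h2
  choose g3 hg3 using h4
  refine h33 ![P, Q, o] a (fun i j => match i with
    | 0 => g1 j
    | 1 => (g2 j).symm
    | 2 => g3 j) ?_
  intro i i' j j' hi hj
  rw [Set.disjoint_left]
  have r0 : ∀ j x, x ∈ Set.range (g1 j) → x ∈ α j ∧ x ≠ Q := by
    rintro j x ⟨t, rfl⟩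
    exact hg1 j t
  have r1 : ∀ j x, x ∈ Set.range (g2 j).symm → x ∈ α j ∧ x ≠ P := by
    rintro j x hx
    rw [Path.symm_range] at hx
    obtain ⟨t, rfl⟩ := hx
    exact hg2 j t
  have r2 : ∀ j x, x ∈ Set.range (g3 j) → ∀ k, k ≠ j → x ∉ α k := by
    rintro j x ⟨t, rfl⟩
    exact hg3 j t
  have k01 : ∀ j j' x, j ≠ j' → x ∈ Set.range (g1 j) → x ∈ Set.range (g2 j').symm → False := by
    intro j j' x hj hx hx'
    obtain ⟨h5, h6⟩ := r0 j x hx
    obtain ⟨h7, h8⟩ := r1 j' x hx'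
    rcases h3 j j' hj ⟨h5, h7⟩ with h | h
    · exact h8 h
    · exact h6 h
  intro x hx hx'
  fin_cases i <;> fin_cases i' <;> first | exact hi rfl | skip
  · exact k01 j j' x hj hx hx'
  · exact r2 j' x hx' j hj (r0 j x hx).1
  · exact k01 j' j x hj.symm hx' hx
  · exact r2 j' x hx' j hj (r1 j x hx).1
  · exact r2 j x hx j' hj.symm (r0 j' x hx').1
  · exact r2 j x hx j' hj.symm (r1 j' x hx').1

end Pool.Agent.LCR
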