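import Pool.Agent.Helper49_LCR.Arcs
import Pool.Agent.Helper49_LCR.Star

/-!
# A skeleton of the template gives a solution of the betweenness instance (module ORD)
-/

namespace Pool.Agent.LCR

open Pool.Agent.SO (Solvable Distinct3)

variable {n m : ℕ}

/-- the vertex `v` is an endpoint of `e` -/
def inc (T : Fin m → Fin 3 → Fin n) (v : TV n m) (e : TE n m) : Prop := v = tsrc T e ∨ v = ttgt T e

/-- union of the strands of a set of edges -/
def U (σ : TE n m → Set Pt) (S : TE n m → Prop) : Set Pt := {x | ∃ e, S e ∧ x ∈ σ e}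

/-- the edges of the pillar of `x` (with the blockers) -/
def inP (T : Fin m → Fin 3 → Fin n) (x : Fin n) : TE n m → Prop
  | .lo y => y = x
  | .hi y => y = x
  | .up _ y => y = x
  | .seg j y => y = x ∧ ∀ s, en T j s ≠ x
  | .blk j s _ => en T j s = x
  | _ => False

/-- the edges of the frame `s` -/
def inFr (s : Bool) : TE n m → Prop
  | .flo s' => s' = s
  | .fhi s' => s' = s
  | .fseg _ s' => s' = s
  | .fup _ s' => s' = s
  | _ => False

/-- the edges of the walls -/
def isW : TE n m → Prop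
  | .wall _ _ => True
  | _ => False

/-- the lower edges of the frame `s` -/
def fdn (s : Bool) (j : ℕ) : TE n m → Prop
  | .flo s' => s' = s
  | .fseg i s' => s' = s ∧ i.val < j
  | .fup i s' => s' = s ∧ i.val < j
  | _ => False

/-- the upper edges of the frame `s` -/
def fup' (s : Bool) (j : ℕ) : TE n m → Prop
  | .fhi s' => s' = s
  | .fseg i s' => s' = s ∧ j ≤ i.val
  | .fup i s' => s' = s ∧ j ≤ i.val
  | _ => False

/-- the vertices of a pillar -/
def VP (T : Fin m → Fin 3 → Fin n) (x : Fin n) : TV n m → Prop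
  | .t => True
  | .b => True
  | .A _ y => y = x
  | .B _ y => y = x
  | .z j s => en T j s = x
  | _ => False

/-- the vertices of a frame -/
def VF (s : Bool) : TV n m → Prop
  | .t => True
  | .b => True
  | .FA _ s' => s' = s
  | .FB _ s' => s' = s
  | _ => False

/-- the vertices of the walls -/
def VW : TV n m → Prop
  | .FB _ _ => True
  | .w _ => True
  | _ => False

theorem inP_inc {T : Fin m → Fin 3 → Fin n} {x : Fin n} {e : TE n m} {v : TV n m}
    (he : inP T x e) (hv : inc T v e) : VP T x v := by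
  cases e with
  | lo y => rcases hv with rfl | rfl <;> simp_all [inP, VP, tsrc, ttgt]
  | hi y => rcases hv with rfl | rfl <;> simp_all [inP, VP, tsrc, ttgt]
  | up j y => rcases hv with rfl | rfl <;> simp_all [inP, VP, tsrc, ttgt]
  | seg j y => rcases hv with rfl | rfl <;> simp_all [inP, VP, tsrc, ttgt]
  | blk j s k => cases k <;> rcases hv with rfl | rfl <;> simp_all [inP, VP, tsrc, ttgt]
  | _ => exact absurd he (by simp [inP])

theorem inFr_inc {T : Fin m → Fin 3 → Fin n} {s : Bool} {e : TE n m} {v : TV n m}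
    (he : inFr s e) (hv : inc T v e) : VF s v := by
  cases e with
  | flo s' => rcases hv with rfl | rfl <;> simp_all [inFr, VF, tsrc, ttgt]
  | fhi s' => rcases hv with rfl | rfl <;> simp_all [inFr, VF, tsrc, ttgt]
  | fseg j s' => rcases hv with rfl | rfl <;> simp_all [inFr, VF, tsrc, ttgt]
  | fup j s' => rcases hv with rfl | rfl <;> simp_all [inFr, VF, tsrc, ttgt]
  | _ => exact absurd he (by simp [inFr])

theorem isW_inc {T : Fin m → Fin 3 → Fin n} {e : TE n m} {v : TV n m}
    (he : isW e) (hv : inc T v e) : VW v := by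
  cases e with
  | wall j s' => rcases hv with rfl | rfl <;> simp_all [isW, VW, tsrc, ttgt]
  | _ => exact absurd he (by simp [isW])

theorem fdn_inc {T : Fin m → Fin 3 → Fin n} {s : Bool} {j : ℕ} {e : TE n m} {v : TV n m}
    (he : fdn s j e) (hv : inc T v e) : v = .t ∨ (∃ i, v = .FA i s ∧ i.val ≤ j) ∨
      ∃ i, v = .FB i s ∧ i.val < j := by
  cases e with
  | flo s' =>
    have he' : s' = s := he
    rcases hv with rfl | rfl
    · exact Or.inl rfl
    · exact Or.inr (Or.inl ⟨0, by rw [he']; rfl, Nat.zero_le _⟩)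
  | fseg i s' =>
    have he' : s' = s ∧ i.val < j := he
    rcases hv with rfl | rfl
    · exact Or.inr (Or.inl ⟨i.castSucc, by rw [he'.1]; rfl, he'.2.le⟩)
    · exact Or.inr (Or.inr ⟨i, by rw [he'.1]; rfl, he'.2⟩)
  | fup i s' =>
    have he' : s' = s ∧ i.val < j := he
    rcases hv with rfl | rfl
    · exact Or.inr (Or.inr ⟨i, by rw [he'.1]; rfl, he'.2⟩)
    · exact Or.inr (Or.inl ⟨i.succ, by rw [he'.1]; rfl, he'.2⟩)
  | _ => exact absurd he (by simp [fdn])

theorem fup'_inc {T : Fin m → Fin 3 → Fin n} {s : Bool} {j : ℕ} (hj : j ≤ m) {e : TE n m}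
    {v : TV n m} (he : fup' s j e) (hv : inc T v e) : v = .b ∨ (∃ i, v = .FA i s ∧ j ≤ i.val) ∨
      ∃ i, v = .FB i s ∧ j ≤ i.val := by
  cases e with
  | fhi s' =>
    have he' : s' = s := he
    rcases hv with rfl | rfl
    · exact Or.inr (Or.inl ⟨Fin.last m, by rw [he']; rfl, hj⟩)
    · exact Or.inl rfl
  | fseg i s' =>
    have he' : s' = s ∧ j ≤ i.val := he
    rcases hv with rfl | rfl
    · exact Or.inr (Or.inl ⟨i.castSucc, by rw [he'.1]; rfl, he'.2⟩)
    · exact Or.inr (Or.inr ⟨i, by rw [he'.1]; rfl, he'.2⟩)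
  | fup i s' =>
    have he' : s' = s ∧ j ≤ i.val := he
    rcases hv with rfl | rfl
    · exact Or.inr (Or.inr ⟨i, by rw [he'.1]; rfl, he'.2⟩)
    · refine Or.inr (Or.inl ⟨i.succ, by rw [he'.1]; rfl, ?_⟩)
      rw [Fin.val_succ]
      omega
  | _ => exact absurd he (by simp [fup'])

theorem inP_ty {T : Fin m → Fin 3 → Fin n} {x : Fin n} {e : TE n m} (he : inP T x e) :
    ty e = .F ∨ ty e = .PW ∨ ty e = .PT ∨ ty e = .P0 := by
  cases e <;> simp_all [inP, ty]

theorem inFr_ty {s : Bool} {e : TE n m} (he : inFr s e) : ty e = .F := by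
  cases e <;> simp_all [inFr, ty]

theorem fdn_ty {s : Bool} {j : ℕ} {e : TE n m} (he : fdn s j e) : ty e = .F := by
  cases e <;> simp_all [fdn, ty]

theorem fup'_ty {s : Bool} {j : ℕ} {e : TE n m} (he : fup' s j e) : ty e = .F := by
  cases e <;> simp_all [fup', ty]

theorem fdn_inFr {s : Bool} {j : ℕ} {e : TE n m} (he : fdn s j e) : inFr s e := by
  cases e <;> simp_all [fdn, inFr]

theorem fup'_inFr {s : Bool} {j : ℕ} {e : TE n m} (he : fup' s j e) : inFr s e := by
  cases e <;> simp_all [fup', inFr]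

theorem isW_ty {e : TE n m} (he : isW e) : ty e = .W := by
  cases e <;> simp_all [isW, ty]

theorem inP_unique {T : Fin m → Fin 3 → Fin n} {x y : Fin n} {e : TE n m} (h1 : inP T x e)
    (h2 : inP T y e) : x = y := by
  cases e <;> simp_all [inP]

theorem forbF (x : Ty) : Forb .F x := by
  cases x <;> decide

theorem U_mono {σ : TE n m → Set Pt} {S S' : TE n m → Prop} (h : ∀ e, S e → S' e) :
    U σ S ⊆ U σ S' := fun _ ⟨e, he, hx⟩ => ⟨e, h e he, hx⟩

section skel

variable {T : Fin m → Fin 3 → Fin n} {β : ℕ} {p : TV n m → Pt} {σ : TE n m → Set Pt}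

theorem U_inter (H : Skel (tmpl T β) p σ (fun e f => Forb (ty e) (ty f)))
    {S1 S2 : TE n m → Prop} (hne : ∀ e, S1 e → ¬ S2 e)
    (hF : ∀ e f, S1 e → S2 f → Forb (ty e) (ty f)) {x : Pt}
    (hx : x ∈ U σ S1) (hx' : x ∈ U σ S2) :
    ∃ v e f, S1 e ∧ S2 f ∧ inc T v e ∧ inc T v f ∧ x = p v := by
  obtain ⟨e, he, hxe⟩ := hx
  obtain ⟨f, hf, hxf⟩ := hx'
  obtain ⟨v, h1, h2, h3⟩ := H.disj e f (fun h => hne e he (h ▸ hf)) (hF e f he hf) x ⟨hxe, hxf⟩
  exact ⟨v, e, f, he, hf, h1, h2, h3⟩

theorem not_U (H : Skel (tmpl T β) p σ (fun e f => Forb (ty e) (ty f)))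
    {S : TE n m → Prop} {v : TV n m} (h : ∀ e, S e → ¬ inc T v e) : p v ∉ U σ S := by
  rintro ⟨e, he, hx⟩
  exact h e he (H.vertex e v hx)

theorem edge_sub {S : TE n m → Prop} {e : TE n m} (he : S e) : σ e ⊆ U σ S := fun _ hx => ⟨e, he, hx⟩

theorem U_closed (H : Skel (tmpl T β) p σ (fun e f => Forb (ty e) (ty f)))
    (S : TE n m → Prop) : IsClosed (U σ S) := by
  have : U σ S = ⋃ e ∈ {e | S e}, σ e := by
    ext x
    simp [U]
  rw [this]
  exact (Set.toFinite {e : TE n m | S e}).isClosed_biUnion fun e _ => H.closed e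

/-- every point of a strand is joined to its first vertex -/
theorem join_all (H : Skel (tmpl T β) p σ (fun e f => Forb (ty e) (ty f))) (e : TE n m) {h : Pt}
    (hh : h ∈ σ e) : JoinedIn (σ e) (p (tsrc T e)) h := by
  by_cases h1 : h = p (ttgt T e)
  · rw [h1]
    exact H.join e
  · exact (H.join_src e h hh h1).mono Set.sdiff_subset

/-! ### chains -/

theorem frame_dn (H : Skel (tmpl T β) p σ (fun e f => Forb (ty e) (ty f))) (s : Bool)
    (j : Fin (m + 1)) : JoinedIn (U σ (fdn s j.val)) (p .t) (p (.FA j s)) := by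
  induction j using Fin.induction with
  | zero => exact (H.join (.flo s)).mono (edge_sub (S := fdn s _) rfl)
  | succ i ih =>
    have h1 : JoinedIn (U σ (fdn s i.succ.val)) (p (.FA i.castSucc s)) (p (.FB i s)) :=
      (H.join (.fseg i s)).mono (edge_sub (S := fdn s _) ⟨rfl, by simp⟩)
    have h2 : JoinedIn (U σ (fdn s i.succ.val)) (p (.FB i s)) (p (.FA i.succ s)) :=
      (H.join (.fup i s)).mono (edge_sub (S := fdn s _) ⟨rfl, by simp⟩)
    refine JoinedIn.trans (ih.mono (U_mono ?_)) (h1.trans h2)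
    intro e he
    cases e with
    | flo s' => exact he
    | fseg k s' => exact ⟨he.1, by have := he.2; simp at this ⊢; omega⟩
    | fup k s' => exact ⟨he.1, by have := he.2; simp at this ⊢; omega⟩
    | _ => exact absurd he (by simp [fdn])

theorem frame_up (H : Skel (tmpl T β) p σ (fun e f => Forb (ty e) (ty f))) (s : Bool)
    (j : Fin (m + 1)) : JoinedIn (U σ (fup' s j.val)) (p (.FA j s)) (p .b) := by
  induction j using Fin.reverseInduction with
  | last => exact (H.join (.fhi s)).mono (edge_sub (S := fup' s _) rfl)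
  | cast i ih =>
    have h1 : JoinedIn (U σ (fup' s i.castSucc.val)) (p (.FA i.castSucc s)) (p (.FB i s)) :=
      (H.join (.fseg i s)).mono (edge_sub (S := fup' s _) ⟨rfl, by simp⟩)
    have h2 : JoinedIn (U σ (fup' s i.castSucc.val)) (p (.FB i s)) (p (.FA i.succ s)) :=
      (H.join (.fup i s)).mono (edge_sub (S := fup' s _) ⟨rfl, by simp⟩)
    refine (h1.trans h2).trans (ih.mono (U_mono ?_))
    intro e he
    cases e with
    | fhi s' => exact he
    | fseg k s' => exact ⟨he.1, by have := he.2; simp at this ⊢; omega⟩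
    | fup k s' => exact ⟨he.1, by have := he.2; simp at this ⊢; omega⟩
    | _ => exact absurd he (by simp [fup'])

/-- an edge of a pillar which does not contain the poles -/
theorem pil_sub (H : Skel (tmpl T β) p σ (fun e f => Forb (ty e) (ty f))) {x : Fin n}
    {e : TE n m} (he : inP T x e) (h1 : ¬ inc T .t e) (h2 : ¬ inc T .b e) :
    σ e ⊆ U σ (inP T x) \ {p .t, p .b} := by
  intro y hy
  refine ⟨⟨e, he, hy⟩, ?_⟩
  rintro (rfl | rfl)
  · exact h1 (H.vertex e _ hy)
  · exact h2 (H.vertex e _ hy)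

theorem pil_B (H : Skel (tmpl T β) p σ (fun e f => Forb (ty e) (ty f))) (x : Fin n) (i : Fin m) :
    JoinedIn (U σ (inP T x) \ {p .t, p .b}) (p (.A i.castSucc x)) (p (.B i x)) := by
  by_cases h : ∃ s, en T i s = x
  · obtain ⟨s, rfl⟩ := h
    have h1 : JoinedIn (U σ (inP T (en T i s)) \ {p .t, p .b}) (p (.A i.castSucc (en T i s)))
        (p (.z i s)) :=
      (H.join (.blk i s false)).mono (pil_sub H (e := .blk i s false) rfl
        (by simp [inc, tsrc, ttgt]) (by simp [inc, tsrc, ttgt]))
    have h2 : JoinedIn (U σ (inP T (en T i s)) \ {p .t, p .b}) (p (.z i s))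
        (p (.B i (en T i s))) :=
      (H.join (.blk i s true)).mono (pil_sub H (e := .blk i s true) rfl
        (by simp [inc, tsrc, ttgt]) (by simp [inc, tsrc, ttgt]))
    exact h1.trans h2
  · push Not at h
    exact (H.join (.seg i x)).mono (pil_sub H (x := x) (e := .seg i x) ⟨rfl, h⟩
        (by simp [inc, tsrc, ttgt]) (by simp [inc, tsrc, ttgt]))

theorem pne (H : Skel (tmpl T β) p σ (fun e f => Forb (ty e) (ty f))) {v : TV n m}
    (h1 : v ≠ .t) (h2 : v ≠ .b) : p v ∉ ({p .t, p .b} : Set Pt) := by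
  rintro (h | h)
  · exact h1 (H.inj h)
  · exact h2 (H.inj h)

theorem pil_A (H : Skel (tmpl T β) p σ (fun e f => Forb (ty e) (ty f))) (x : Fin n)
    (j : Fin (m + 1)) :
    JoinedIn (U σ (inP T x) \ {p .t, p .b}) (p (.A 0 x)) (p (.A j x)) := by
  induction j using Fin.induction with
  | zero =>
    exact JoinedIn.refl ⟨⟨.lo x, rfl, H.tgt_mem (.lo x)⟩, pne H (by simp) (by simp)⟩
  | succ i ih =>
    refine ih.trans ((pil_B H x i).trans ?_)
    exact (H.join (.up i x)).mono (pil_sub H (x := x) (e := .up i x) rfl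
        (by simp [inc, tsrc, ttgt]) (by simp [inc, tsrc, ttgt]))

/-- all points of the pillar are joined to `A j x` -/
theorem pil_conn (H : Skel (tmpl T β) p σ (fun e f => Forb (ty e) (ty f))) (x : Fin n)
    (j : Fin (m + 1)) (h : Pt) (hh : h ∈ U σ (inP T x) \ {p .t, p .b}) :
    JoinedIn (U σ (inP T x) \ {p .t, p .b}) (p (.A j x)) h := by
  obtain ⟨⟨e, he, hhe⟩, hn⟩ := hh
  have hj := (pil_A H x j).symm
  cases e with
  | lo y =>
    have hy : y = x := he
    subst hy
    have h1 := H.join_tgt (.lo y) h hhe (fun h => hn (Or.inl h))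
    refine hj.trans (JoinedIn.symm (h1.mono ?_))
    rintro z ⟨hz, hz'⟩
    refine ⟨⟨_, he, hz⟩, ?_⟩
    rintro (h | h)
    · exact hz' h
    · have h : z = p .b := h
      subst h
      rcases H.vertex _ _ hz with h | h <;> simp [tmpl, tsrc, ttgt] at h
  | hi y =>
    have hy : y = x := he
    subst hy
    have h1 := H.join_src (.hi y) h hhe (fun h => hn (Or.inr h))
    refine (hj.trans (pil_A H y (Fin.last m))).trans (h1.mono ?_)
    rintro z ⟨hz, hz'⟩
    refine ⟨⟨_, he, hz⟩, ?_⟩
    rintro (h | h)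
    · have h : z = p .t := h
      subst h
      rcases H.vertex _ _ hz with h | h <;> simp [tmpl, tsrc, ttgt] at h
    · exact hz' h
  | up i y =>
    have hy : y = x := he
    subst hy
    exact ((hj.trans (pil_A H y i.castSucc)).trans (pil_B H y i)).trans
      ((join_all H _ hhe).mono (pil_sub H he (by simp [inc, tsrc, ttgt]) (by simp [inc, tsrc, ttgt])))
  | seg i y =>
    have hy : y = x := he.1
    subst hy
    exact (hj.trans (pil_A H y i.castSucc)).trans
      ((join_all H _ hhe).mono (pil_sub H he (by simp [inc, tsrc, ttgt]) (by simp [inc, tsrc, ttgt])))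
  | blk i s k =>
    have hy : en T i s = x := he
    subst hy
    have h0 : JoinedIn (U σ (inP T (en T i s)) \ {p .t, p .b}) (p (.A i.castSucc (en T i s)))
        (p (.z i s)) :=
      (H.join (.blk i s false)).mono (pil_sub H (e := .blk i s false) rfl
        (by simp [inc, tsrc, ttgt]) (by simp [inc, tsrc, ttgt]))
    cases k with
    | false =>
      exact (hj.trans (pil_A H _ i.castSucc)).trans ((join_all H _ hhe).mono (pil_sub H he
        (by simp [inc, tsrc, ttgt]) (by simp [inc, tsrc, ttgt])))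
    | true =>
      exact ((hj.trans (pil_A H _ i.castSucc)).trans h0).trans ((join_all H _ hhe).mono
        (pil_sub H he (by simp [inc, tsrc, ttgt]) (by simp [inc, tsrc, ttgt])))
  | _ => exact absurd he (by simp [inP])

/-! ### the level lemma -/

/-- the edges of the wall of level `i` -/
def wl (i : Fin m) : TE n m → Prop
  | .wall j _ => j = i
  | _ => False

/-- the edges of the frames below the wall of level `i` -/
def low2 (i : Fin m) : TE n m → Prop
  | .flo _ => True
  | .fseg k _ => k.val ≤ i.val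
  | .fup k _ => k.val < i.val
  | _ => False

/-- the edges of the frames above the wall of level `i` -/
def upp2 (i : Fin m) : TE n m → Prop
  | .fhi _ => True
  | .fseg k _ => i.val < k.val
  | .fup k _ => i.val ≤ k.val
  | _ => False

theorem wl_inc {i : Fin m} {e : TE n m} {v : TV n m} (he : wl i e) (hv : inc T v e) :
    (∃ s, v = .FB i s) ∨ v = .w i := by
  cases e with
  | wall j s =>
    have he' : j = i := he
    subst he'
    rcases hv with rfl | rfl
    · exact Or.inl ⟨s, rfl⟩
    · exact Or.inr rfl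
  | _ => exact absurd he (by simp [wl])

theorem low2_inc {i : Fin m} {e : TE n m} {v : TV n m} (he : low2 i e) (hv : inc T v e) :
    v = .t ∨ (∃ (k : Fin (m + 1)) (s : Bool), v = .FA k s ∧ k.val ≤ i.val) ∨
      ∃ (k : Fin m) (s : Bool), v = .FB k s ∧ k.val ≤ i.val := by
  cases e with
  | flo s' =>
    rcases hv with rfl | rfl
    · exact Or.inl rfl
    · exact Or.inr (Or.inl ⟨0, s', rfl, Nat.zero_le _⟩)
  | fseg k s' =>
    have he' : k.val ≤ i.val := he
    rcases hv with rfl | rfl
    · exact Or.inr (Or.inl ⟨k.castSucc, s', rfl, he'⟩)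
    · exact Or.inr (Or.inr ⟨k, s', rfl, he'⟩)
  | fup k s' =>
    have he' : k.val < i.val := he
    rcases hv with rfl | rfl
    · exact Or.inr (Or.inr ⟨k, s', rfl, he'.le⟩)
    · exact Or.inr (Or.inl ⟨k.succ, s', rfl, he'⟩)
  | _ => exact absurd he (by simp [low2])

theorem upp2_inc {i : Fin m} {e : TE n m} {v : TV n m} (he : upp2 i e) (hv : inc T v e) :
    v = .b ∨ (∃ (k : Fin (m + 1)) (s : Bool), v = .FA k s ∧ i.val < k.val) ∨
      ∃ (k : Fin m) (s : Bool), v = .FB k s ∧ i.val ≤ k.val := by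
  cases e with
  | fhi s' =>
    rcases hv with rfl | rfl
    · exact Or.inr (Or.inl ⟨Fin.last m, s', rfl, i.2⟩)
    · exact Or.inl rfl
  | fseg k s' =>
    have he' : i.val < k.val := he
    rcases hv with rfl | rfl
    · exact Or.inr (Or.inl ⟨k.castSucc, s', rfl, he'⟩)
    · exact Or.inr (Or.inr ⟨k, s', rfl, he'.le⟩)
  | fup k s' =>
    have he' : i.val ≤ k.val := he
    rcases hv with rfl | rfl
    · exact Or.inr (Or.inr ⟨k, s', rfl, he'⟩)
    · exact Or.inr (Or.inl ⟨k.succ, s', rfl, Nat.lt_succ_of_le he'⟩)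
  | _ => exact absurd he (by simp [upp2])

theorem wl_ty {i : Fin m} {e : TE n m} (he : wl i e) : ty e = .W := by
  cases e <;> simp_all [wl, ty]

theorem low2_ty {i : Fin m} {e : TE n m} (he : low2 i e) : ty e = .F := by
  cases e <;> simp_all [low2, ty]

theorem upp2_ty {i : Fin m} {e : TE n m} (he : upp2 i e) : ty e = .F := by
  cases e <;> simp_all [upp2, ty]

theorem forbT2 : Forb .T2 .W := by decide

/-- disjoint unions of strands -/
theorem U_disj (H : Skel (tmpl T β) p σ (fun e f => Forb (ty e) (ty f)))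
    {S1 S2 : TE n m → Prop} (hF : ∀ e f, S1 e → S2 f → Forb (ty e) (ty f))
    (hv : ∀ e f v, S1 e → S2 f → inc T v e → ¬ inc T v f) {x : Pt} (hx : x ∈ U σ S1) :
    x ∉ U σ S2 := by
  intro hx'
  have hne : ∀ e, S1 e → ¬ S2 e := fun e h1 h2 => hv e e (tsrc T e) h1 h2 (Or.inl rfl) (Or.inl rfl)
  obtain ⟨v, e, f, h1, h2, h3, h4, -⟩ := U_inter H hne hF hx hx'
  exact hv e f v h1 h2 h3 h4

/-- an edge which is disjoint from a union of strands -/
theorem edge_av (H : Skel (tmpl T β) p σ (fun e f => Forb (ty e) (ty f))) {e : TE n m}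
    {S : TE n m → Prop} (hF : ∀ f, S f → Forb (ty e) (ty f))
    (hv : ∀ f v, S f → inc T v e → ¬ inc T v f) {x : Pt} (hx : x ∈ σ e) : x ∉ U σ S :=
  U_disj H (S1 := fun f => f = e) (fun _ f h1 h2 => h1 ▸ hF f h2)
    (fun _ f v h1 h2 => h1 ▸ hv f v h2) ⟨e, rfl, hx⟩

theorem low2_fr {i : Fin m} : U σ (low2 i) ⊆ U σ (inFr false) ∪ U σ (inFr true) := by
  rintro x ⟨e, he, hx⟩
  cases e with
  | flo s => cases s; exacts [Or.inl ⟨.flo false, rfl, hx⟩, Or.inr ⟨.flo true, rfl, hx⟩]
  | fseg k s => cases s; exacts [Or.inl ⟨.fseg k false, rfl, hx⟩, Or.inr ⟨.fseg k true, rfl, hx⟩]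
  | fup k s => cases s; exacts [Or.inl ⟨.fup k false, rfl, hx⟩, Or.inr ⟨.fup k true, rfl, hx⟩]
  | _ => exact absurd he (by simp [low2])

theorem level (hst : StarStmt) (H : Skel (tmpl T β) p σ (fun e f => Forb (ty e) (ty f)))
    {i j : Fin m} (hij : i.val < j.val) :
    ¬ JoinedIn (U σ isW ∪ (U σ (inFr false) ∪ U σ (inFr true)))ᶜ (p (.u i)) (p (.u j)) := by
  intro hpath
  -- the paths along the frames
  have dn : ∀ s s', s ≠ s' → JoinedIn (U σ (low2 i) \ {p (.FB i s')}) (p (.FB i s)) (p .t) := by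
    intro s s' hs
    have h1 : JoinedIn (U σ (low2 i) \ {p (.FB i s')}) (p (.FB i s)) (p (.FA i.castSucc s)) := by
      refine (H.join (.fseg i s)).symm.mono fun x hx => ⟨⟨.fseg i s, le_rfl, hx⟩, ?_⟩
      rintro rfl
      rcases H.vertex _ _ hx with h | h <;> simp [tmpl, tsrc, ttgt] at h
      exact hs h.symm
    refine h1.trans ((frame_dn H s i.castSucc).symm.mono fun x hx => ⟨U_mono ?_ hx, ?_⟩)
    · intro e he
      cases e <;> simp_all [fdn, low2]
      omega
    · rintro rfl
      refine not_U H (S := fdn s i.castSucc.val) ?_ hx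
      intro e he hv
      rcases fdn_inc he hv with h | ⟨k, h, -⟩ | ⟨k, h, -⟩ <;> simp at h
      exact hs h.2.symm
  have up : ∀ s s', s ≠ s' → JoinedIn (U σ (upp2 i) \ {p (.FB i s')}) (p (.FB i s)) (p .b) := by
    intro s s' hs
    have h1 : JoinedIn (U σ (upp2 i) \ {p (.FB i s')}) (p (.FB i s)) (p (.FA i.succ s)) := by
      refine (H.join (.fup i s)).mono fun x hx => ⟨⟨.fup i s, le_rfl, hx⟩, ?_⟩
      rintro rfl
      rcases H.vertex _ _ hx with h | h <;> simp [tmpl, tsrc, ttgt] at h
      exact hs h.symm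
    refine h1.trans ((frame_up H s i.succ).mono fun x hx => ⟨U_mono ?_ hx, ?_⟩)
    · intro e he
      cases e <;> simp_all [fup', upp2] <;> omega
    · rintro rfl
      refine not_U H (S := fup' s i.succ.val) ?_ hx
      intro e he hv
      rcases fup'_inc i.succ.is_le he hv with h | ⟨k, h, -⟩ | ⟨k, h, -⟩ <;> simp at h
      exact hs h.2.symm
  have wj : ∀ s s', s ≠ s' → JoinedIn (U σ (wl i) \ {p (.FB i s')}) (p (.FB i s)) (p (.w i)) := by
    intro s s' hs
    refine (H.join (.wall i s)).mono fun x hx => ⟨⟨.wall i s, rfl, hx⟩, ?_⟩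
    rintro rfl
    rcases H.vertex _ _ hx with h | h <;> simp [tmpl, tsrc, ttgt] at h
    exact hs h.symm
  have hFB : ∀ s, p (.FB i s) ∈ ({p (.FB i false), p (.FB i true)} : Set Pt) := by
    intro s
    cases s
    · exact Or.inl rfl
    · exact Or.inr rfl
  refine Arcs.star3 hst (t := p (.FB i false)) (b := p (.FB i true)) (o := p (.u i))
    (wj false true (by simp)) (dn false true (by simp)) (up false true (by simp))
    (wj true false (by simp)).symm (dn true false (by simp)).symm (up true false (by simp)).symm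
    ?_ ?_ ?_ ?_ ?_ ?_
  · rintro x ⟨hx, hx'⟩
    obtain ⟨v, e, f, he, hf, h1, h2, rfl⟩ := U_inter H (fun e h1 h2 => by
      have := wl_ty h1; rw [low2_ty h2] at this; simp at this) (fun e f h1 h2 => by
      rw [low2_ty h2]; exact (forbF _).symm) hx hx'
    rcases wl_inc he h1 with ⟨s, rfl⟩ | rfl
    · exact hFB s
    · rcases low2_inc hf h2 with h | ⟨k, s, h, -⟩ | ⟨k, s, h, -⟩ <;> simp at h
  · rintro x ⟨hx, hx'⟩
    obtain ⟨v, e, f, he, hf, h1, h2, rfl⟩ := U_inter H (fun e h1 h2 => by
      have := wl_ty h1; rw [upp2_ty h2] at this; simp at this) (fun e f h1 h2 => by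
      rw [upp2_ty h2]; exact (forbF _).symm) hx hx'
    rcases wl_inc he h1 with ⟨s, rfl⟩ | rfl
    · exact hFB s
    · rcases upp2_inc hf h2 with h | ⟨k, s, h, -⟩ | ⟨k, s, h, -⟩ <;> simp at h
  · rintro x ⟨hx, hx'⟩
    obtain ⟨v, e, f, he, hf, h1, h2, rfl⟩ := U_inter H (fun e h1 h2 => by
      cases e <;> simp_all [low2, upp2] <;> omega) (fun e f h1 h2 => by
      rw [upp2_ty h2]; exact (forbF _).symm) hx hx'
    rcases low2_inc he h1 with rfl | ⟨k, s, rfl, hk⟩ | ⟨k, s, rfl, hk⟩
    · rcases upp2_inc hf h2 with h | ⟨k, s, h, -⟩ | ⟨k, s, h, -⟩ <;> simp at h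
    · rcases upp2_inc hf h2 with h | ⟨k', s', h, hk'⟩ | ⟨k', s', h, hk'⟩ <;> simp at h
      rw [h.1] at hk
      omega
    · rcases upp2_inc hf h2 with h | ⟨k', s', h, hk'⟩ | ⟨k', s', h, hk'⟩ <;> simp at h
      rw [← h.1] at hk'
      have : k = i := Fin.ext (le_antisymm hk hk')
      rw [this]
      exact hFB s
  · refine (H.join (.wtie i)).mono fun x hx => ?_
    rintro (h | h)
    · refine edge_av H (S := low2 i) (fun f hf => by rw [low2_ty hf]; exact (forbF _).symm)
        (fun f v hf hv hv' => ?_) hx h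
      rcases low2_inc hf hv' with rfl | ⟨k, s, rfl, -⟩ | ⟨k, s, rfl, -⟩ <;>
        rcases hv with h | h <;> simp [tsrc, ttgt] at h
    · refine edge_av H (S := upp2 i) (fun f hf => by rw [upp2_ty hf]; exact (forbF _).symm)
        (fun f v hf hv hv' => ?_) hx h
      rcases upp2_inc hf hv' with rfl | ⟨k, s, rfl, -⟩ | ⟨k, s, rfl, -⟩ <;>
        rcases hv with h | h <;> simp [tsrc, ttgt] at h
  · have h1 : JoinedIn (U σ (wl i) ∪ U σ (upp2 i))ᶜ (p (.u i)) (p (.FA i.castSucc false)) := by
      refine (H.join (.ftie i false)).mono fun x hx => ?_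
      rintro (h | h)
      · refine edge_av H (S := wl i) (fun f hf => by rw [wl_ty hf]; exact forbT2)
          (fun f v hf hv hv' => ?_) hx h
        rcases wl_inc hf hv' with ⟨s, rfl⟩ | rfl <;> rcases hv with h | h <;>
          simp [tsrc, ttgt] at h
      · refine edge_av H (S := upp2 i) (fun f hf => by rw [upp2_ty hf]; exact (forbF _).symm)
          (fun f v hf hv hv' => ?_) hx h
        rcases upp2_inc hf hv' with rfl | ⟨k, s, rfl, hk⟩ | ⟨k, s, rfl, -⟩ <;>
          rcases hv with h | h <;> simp [tsrc, ttgt] at h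
        rw [h.1] at hk
        simp at hk
    refine h1.trans ((frame_dn H false i.castSucc).symm.mono fun x hx => ?_)
    rintro (h | h)
    · refine U_disj H (S1 := fdn false i.castSucc.val) (S2 := wl i)
        (fun e f h1 h2 => by rw [fdn_ty h1]; exact forbF _) (fun e f v he hf hv hv' => ?_) hx h
      rcases wl_inc hf hv' with ⟨s, rfl⟩ | rfl
      · rcases fdn_inc he hv with h | ⟨k, h, -⟩ | ⟨k, h, hk⟩ <;> simp at h
        rw [← h.1] at hk
        simp at hk
      · rcases fdn_inc he hv with h | ⟨k, h, -⟩ | ⟨k, h, hk⟩ <;> simp at h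
    · refine U_disj H (S1 := fdn false i.castSucc.val) (S2 := upp2 i)
        (fun e f h1 h2 => by rw [fdn_ty h1]; exact forbF _) (fun e f v he hf hv hv' => ?_) hx h
      rcases upp2_inc hf hv' with rfl | ⟨k', s', rfl, hk'⟩ | ⟨k', s', rfl, hk'⟩
      · rcases fdn_inc he hv with h | ⟨k, h, -⟩ | ⟨k, h, hk⟩ <;> simp at h
      · rcases fdn_inc he hv with h | ⟨k, h, hk⟩ | ⟨k, h, hk⟩ <;> simp at h
        rw [← h.1] at hk
        simp at hk
        omega
      · rcases fdn_inc he hv with h | ⟨k, h, hk⟩ | ⟨k, h, hk⟩ <;> simp at h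
        rw [← h.1] at hk
        simp at hk
        omega
  · have h1 : JoinedIn (U σ (wl i) ∪ U σ (low2 i))ᶜ (p (.u i)) (p (.u j)) := by
      refine hpath.mono (Set.compl_subset_compl.2 ?_)
      rintro x (h | h)
      · left
        refine U_mono ?_ h
        intro e he
        cases e <;> simp_all [wl, isW]
      · right
        exact low2_fr h
    have h2 : JoinedIn (U σ (wl i) ∪ U σ (low2 i))ᶜ (p (.u j)) (p (.FA j.castSucc false)) := by
      refine (H.join (.ftie j false)).mono fun x hx => ?_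
      rintro (h | h)
      · refine edge_av H (S := wl i) (fun f hf => by rw [wl_ty hf]; exact forbT2)
          (fun f v hf hv hv' => ?_) hx h
        rcases wl_inc hf hv' with ⟨s, rfl⟩ | rfl <;> rcases hv with h | h <;>
          simp [tsrc, ttgt] at h
      · refine edge_av H (S := low2 i) (fun f hf => by rw [low2_ty hf]; exact (forbF _).symm)
          (fun f v hf hv hv' => ?_) hx h
        rcases low2_inc hf hv' with rfl | ⟨k, s, rfl, hk⟩ | ⟨k, s, rfl, -⟩ <;>
          rcases hv with h | h <;> simp [tsrc, ttgt] at h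
        rw [h.1] at hk
        simp at hk
        omega
    refine (h1.trans h2).trans ((frame_up H false j.castSucc).mono fun x hx => ?_)
    rintro (h | h)
    · refine U_disj H (S1 := fup' false j.castSucc.val) (S2 := wl i)
        (fun e f h1 h2 => by rw [fup'_ty h1]; exact forbF _) (fun e f v he hf hv hv' => ?_) hx h
      rcases wl_inc hf hv' with ⟨s, rfl⟩ | rfl
      · rcases fup'_inc j.castSucc.is_le he hv with h | ⟨k, h, -⟩ | ⟨k, h, hk⟩ <;> simp at h
        rw [← h.1] at hk
        simp at hk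
        omega
      · rcases fup'_inc j.castSucc.is_le he hv with h | ⟨k, h, -⟩ | ⟨k, h, hk⟩ <;> simp at h
    · refine U_disj H (S1 := fup' false j.castSucc.val) (S2 := low2 i)
        (fun e f h1 h2 => by rw [fup'_ty h1]; exact forbF _) (fun e f v he hf hv hv' => ?_) hx h
      rcases low2_inc hf hv' with rfl | ⟨k', s', rfl, hk'⟩ | ⟨k', s', rfl, hk'⟩
      · rcases fup'_inc j.castSucc.is_le he hv with h | ⟨k, h, -⟩ | ⟨k, h, hk⟩ <;> simp at h
      · rcases fup'_inc j.castSucc.is_le he hv with h | ⟨k, h, hk⟩ | ⟨k, h, hk⟩ <;> simp at h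
        rw [← h.1] at hk
        simp at hk
        omega
      · rcases fup'_inc j.castSucc.is_le he hv with h | ⟨k, h, hk⟩ | ⟨k, h, hk⟩ <;> simp at h
        rw [← h.1] at hk
        simp at hk
        omega

/-! ### the arcs -/

/-- the vertices outside the walls and the frames -/
def off : TV n m → Prop
  | .u _ => True
  | .A _ _ => True
  | .B _ _ => True
  | _ => False

/-- ties, constraint edges and the thin parts of the pillars avoid the walls and the frames -/
theorem av (H : Skel (tmpl T β) p σ (fun e f => Forb (ty e) (ty f))) {e : TE n m}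
    (h1 : off (tsrc T e)) (h2 : off (ttgt T e)) (h3 : Forb (ty e) .W) {x : Pt} (hx : x ∈ σ e) :
    x ∈ (U σ isW ∪ (U σ (inFr false) ∪ U σ (inFr true)))ᶜ := by
  have hoff : ∀ v, inc T v e → off v := by
    rintro v (rfl | rfl)
    · exact h1
    · exact h2
  have hfr : ∀ s, x ∉ U σ (inFr s) := by
    intro s
    refine edge_av H (fun f hf => by rw [inFr_ty hf]; exact (forbF _).symm)
      (fun f v hf hv hv' => ?_) hx
    have h4 := hoff v hv
    have h5 := inFr_inc hf hv'
    cases v <;> simp_all [off, VF]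
  rintro (h | h | h)
  · refine edge_av H (S := isW) (fun f hf => by rw [isW_ty hf]; exact h3)
      (fun f v hf hv hv' => ?_) hx h
    have h4 := hoff v hv
    have h5 := isW_inc hf hv'
    cases v <;> simp_all [off, VW]
  · exact hfr _ h
  · exact hfr _ h

theorem tie_av (H : Skel (tmpl T β) p σ (fun e f => Forb (ty e) (ty f))) (j : Fin m) (x : Fin n) :
    JoinedIn (U σ isW ∪ (U σ (inFr false) ∪ U σ (inFr true)))ᶜ (p (.u j)) (p (.A j.castSucc x)) :=
  (H.join (.tie j x)).mono fun _ hx => av H (e := .tie j x) trivial trivial forbT2 hx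

theorem ftie_av (H : Skel (tmpl T β) p σ (fun e f => Forb (ty e) (ty f))) (j : Fin m) (s : Bool) :
    JoinedIn (insert (p (.FA j.castSucc s)) (U σ (inFr false) ∪ U σ (inFr true))ᶜ)
      (p (.u j)) (p (.FA j.castSucc s)) := by
  refine (H.join (.ftie j s)).mono fun x hx => ?_
  by_cases hne : x = p (.FA j.castSucc s)
  · exact Or.inl hne
  right
  have hfr : ∀ s', x ∉ U σ (inFr s') := by
    intro s' h
    obtain ⟨v, e, f, he, hf, hv, hv', hxv⟩ := U_inter H (S1 := fun f => f = .ftie j s)
      (S2 := inFr s') (fun e h1 h2 => by rw [h1] at h2; exact h2)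
      (fun e f h1 h2 => by rw [inFr_ty h2]; exact (forbF _).symm) ⟨_, rfl, hx⟩ h
    have h1 := inFr_inc hf hv'
    rw [he] at hv
    rcases hv with rfl | rfl
    · exact h1
    · exact hne hxv
  rintro (h | h)
  · exact hfr _ h
  · exact hfr _ h

theorem arcs (H : Skel (tmpl T β) p σ (fun e f => Forb (ty e) (ty f))) (j : Fin m) :
    Arcs (Fin n) (p .t) (p .b) (p (.u j)) (p (.FA j.castSucc false)) (p (.FA j.castSucc true))
      (U σ (inFr false)) (U σ (inFr true)) (fun x => U σ (inP T x))
      (fun x => p (.A j.castSucc x)) := by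
  have hdn : ∀ s, JoinedIn (U σ (inFr s) \ {p .b}) (p .t) (p (.FA j.castSucc s)) := by
    intro s
    refine (frame_dn H s j.castSucc).mono fun x hx => ⟨U_mono (fun e => fdn_inFr) hx, ?_⟩
    rintro rfl
    refine not_U H (S := fdn s j.castSucc.val) ?_ hx
    intro e he hv
    rcases fdn_inc he hv with h | ⟨k, h, -⟩ | ⟨k, h, -⟩ <;> simp at h
  have hup : ∀ s, JoinedIn (U σ (inFr s) \ {p .t}) (p (.FA j.castSucc s)) (p .b) := by
    intro s
    refine (frame_up H s j.castSucc).mono fun x hx => ⟨U_mono (fun e => fup'_inFr) hx, ?_⟩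
    rintro rfl
    refine not_U H (S := fup' s j.castSucc.val) ?_ hx
    intro e he hv
    rcases fup'_inc j.castSucc.is_le he hv with h | ⟨k, h, -⟩ | ⟨k, h, -⟩ <;> simp at h
  have hpf : ∀ x s, U σ (inP T x) ∩ U σ (inFr s) ⊆ {p .t, p .b} := by
    rintro x s y ⟨hy, hy'⟩
    obtain ⟨v, e, f, he, hf, h1, h2, rfl⟩ := U_inter H (fun e h1 h2 => by
      cases e <;> simp_all [inP, inFr]) (fun e f h1 h2 => by
      rw [inFr_ty h2]; exact (forbF _).symm) hy hy'
    have h3 := inP_inc he h1
    have h4 := inFr_inc hf h2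
    cases v <;> simp_all [VP, VF]
  refine ⟨hdn false, hup false, hdn true, hup true, ?_, ?_, fun x => U_closed H _, U_closed H _,
    ?_, fun x => hpf x false, fun x => hpf x true, ?_, ?_, ?_, ftie_av H j false, ftie_av H j true⟩
  · intro x
    have h1 : JoinedIn (U σ (inP T x) \ {p .b}) (p .t) (p (.A 0 x)) := by
      refine (H.join (.lo x)).mono fun y hy => ⟨⟨.lo x, rfl, hy⟩, ?_⟩
      rintro rfl
      rcases H.vertex _ _ hy with h | h <;> simp [tmpl, tsrc, ttgt] at h
    refine h1.trans ((pil_A H x j.castSucc).mono fun y hy => ⟨hy.1, fun h => hy.2 (Or.inr h)⟩)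
  · intro x
    have h1 : JoinedIn (U σ (inP T x) \ {p .t}) (p (.A (Fin.last m) x)) (p .b) := by
      refine (H.join (.hi x)).mono fun y hy => ⟨⟨.hi x, rfl, hy⟩, ?_⟩
      rintro rfl
      rcases H.vertex _ _ hy with h | h <;> simp [tmpl, tsrc, ttgt] at h
    have h2 : U σ (inP T x) \ {p .t, p .b} ⊆ U σ (inP T x) \ {p .t} :=
      fun y hy => ⟨hy.1, fun h => hy.2 (Or.inl h)⟩
    exact (((pil_A H x j.castSucc).symm.trans (pil_A H x (Fin.last m))).mono h2).trans h1
  · rintro y ⟨hy, hy'⟩
    obtain ⟨v, e, f, he, hf, h1, h2, rfl⟩ := U_inter H (fun e h1 h2 => by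
      cases e <;> simp_all [inFr]) (fun e f h1 h2 => by
      rw [inFr_ty h2]; exact (forbF _).symm) hy hy'
    have h3 := inFr_inc he h1
    have h4 := inFr_inc hf h2
    cases v <;> simp_all [VF]
  · rintro x y hxy z ⟨hz, hz'⟩
    obtain ⟨v, e, f, he, hf, h1, h2, rfl⟩ := U_inter H (fun e h1 h2 => hxy (inP_unique h1 h2))
      (fun e f h1 h2 => by
        rcases inP_ty h1 with h | h | h | h <;> rcases inP_ty h2 with h' | h' | h' | h' <;>
          rw [h, h'] <;> decide) hz hz'
    have h3 := inP_inc he h1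
    have h4 := inP_inc hf h2
    cases v <;> simp_all [VP]
  · intro x h hh
    exact pil_conn H x j.castSucc h hh
  · intro x
    exact (tie_av H j x).mono (Set.compl_subset_compl.2 fun y hy => Or.inr hy)

/-- the constraint edges -/
theorem con_av (hst : StarStmt) (H : Skel (tmpl T β) p σ (fun e f => Forb (ty e) (ty f)))
    (hT : Distinct3 T) (j : Fin m) (s : Bool) {x : Pt} (hx : x ∈ σ (.con j s)) :
    x ∉ U σ (inP T (en T j (!s))) := by
  have hne : en T j s ≠ en T j (!s) := by
    intro h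
    cases s <;> simp [en] at h <;> exact absurd (hT j h) (by decide)
  have hne' : T j 1 ≠ en T j (!s) := by
    intro h
    cases s <;> simp [en] at h <;> exact absurd (hT j h) (by decide)
  rintro ⟨e, he, hxe⟩
  -- common vertices
  have hv : ∀ v, inc T v (.con j s) → ¬ inc T v e := by
    intro v hv hv'
    have h1 := inP_inc he hv'
    rcases hv with rfl | rfl
    · exact hne h1
    · exact hne' h1
  have hav := edge_av H (e := .con j s) (S := fun f => f = e)
  have hfin : ¬ Forb .T1 (ty e) := by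
    intro hF
    exact hav (fun f hf => hf ▸ hF) (fun f v hf hv1 hv2 => hv v hv1 (hf ▸ hv2)) hx ⟨e, rfl, hxe⟩
  cases e with
  | lo y => exact hfin (by show Forb .T1 .F; decide)
  | hi y => exact hfin (by show Forb .T1 .F; decide)
  | up i y => exact hfin (by show Forb .T1 .PW; decide)
  | blk i s' k => exact hfin (by show Forb .T1 .P0; decide)
  | seg i y =>
    have hy : y = en T j (!s) := he.1
    have hij : i ≠ j := by
      rintro rfl
      exact he.2 (!s) rfl
    -- the hubs of the levels i and j are joined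
    have hsg : ∀ z ∈ σ (.seg i y), z ∈ (U σ isW ∪ (U σ (inFr false) ∪ U σ (inFr true)))ᶜ :=
      fun z hz => av H (e := .seg i y) trivial trivial (by show Forb .PT .W; decide) hz
    have hcn : ∀ z ∈ σ (.con j s), z ∈ (U σ isW ∪ (U σ (inFr false) ∪ U σ (inFr true)))ᶜ :=
      fun z hz => av H (e := .con j s) trivial trivial (by show Forb .T1 .W; decide) hz
    have h1 := (tie_av H j (en T j s)).trans ((join_all H (.con j s) hx).mono hcn)
    have h2 := (tie_av H i y).trans ((join_all H (.seg i y) hxe).mono hsg)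
    have h3 := h1.trans h2.symm
    rcases lt_or_gt_of_ne (fun h => hij (Fin.ext h)) with h | h
    · exact level hst H h h3.symm
    · exact level hst H h h3
  | _ => exact absurd he (by simp [inP])

end skel

theorem ord (hst : StarStmt) : OrdStmt := by
  intro n m T β hT p σ H
  rcases Nat.eq_zero_or_pos m with hm | hm
  · subst hm
    exact ⟨fun x => x.val, fun x y h => Fin.ext (by simpa using h), fun j => j.elim0⟩
  have HA := arcs H (⟨0, hm⟩ : Fin m)
  obtain ⟨ρ, hρ, hbet⟩ := HA.order hst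
  refine ⟨ρ, hρ, fun j => ?_⟩
  have key : ∀ s, JoinedIn (U σ (inP T (en T j (!s))) ∪ U σ (inFr true))ᶜ
      (p (.A (⟨0, hm⟩ : Fin m).castSucc (en T j s))) (p (.A (⟨0, hm⟩ : Fin m).castSucc (T j 1))) := by
    intro s
    have hne : en T j (!s) ≠ en T j s := by
      intro h
      cases s <;> simp [en] at h <;> exact absurd (hT j h) (by decide)
    have hne' : en T j (!s) ≠ T j 1 := by
      intro h
      cases s <;> simp [en] at h <;> exact absurd (hT j h) (by decide)
    have c1 := ((HA.conn (en T j s) (p (.A j.castSucc (en T j s)))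
      (pil_A H (en T j s) j.castSucc).target_mem).mono (HA.sub hne))
    have c2 := ((HA.conn (T j 1) (p (.B j (T j 1)))
      (pil_B H (T j 1) j).target_mem).mono (HA.sub hne'))
    have c3 : JoinedIn (U σ (inP T (en T j (!s))) ∪ U σ (inFr true))ᶜ
        (p (.A j.castSucc (en T j s))) (p (.B j (T j 1))) := by
      refine (H.join (.con j s)).mono fun x hx => ?_
      rintro (h | h)
      · exact con_av hst H hT j s hx h
      · exact av H (e := .con j s) trivial trivial (by show Forb .T1 .W; decide) hx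
          (Or.inr (Or.inr h))
    exact (c1.trans c3).trans c2.symm
  refine hbet (T j 0) (T j 1) (T j 2) (fun h => absurd (hT j h) (by decide))
    (fun h => absurd (hT j h) (by decide)) (fun h => absurd (hT j h) (by decide)) (key false)
    (key true)

end Pool.Agent.LCR
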