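import Pool.Agent.Helper49_LCR.Base

/-!
# Statements of the modules of the proof that the local crossing number cannot be approximated
-/

namespace Pool.Agent.LCR

open Pool.Agent.SO (Solvable Distinct3 instF triples)
open Pool.Agent.Common_CookLevin (CNF encodeCNF)

/-! ## Part A: topology -/

/-- K33 (van Kampen–Flores for `K_{3,3}`): in every drawing of `K_{3,3}` by arbitrary paths some
two disjoint edges meet. -/
def K33Stmt : Prop :=
  ∀ (p q : Fin 3 → Pt) (γ : ∀ i j, Path (p i) (q j)),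
    (∀ i i' j j', i ≠ i' → j ≠ j' → Disjoint (Set.range (γ i j)) (Set.range (γ i' j'))) → False

/-- STAR: if three sets `α i` contain paths from `P` to `Q` through `a i` and have pairwise only
`P` and `Q` in common, then no point `o` can be joined to each `a i` avoiding the two other
sets. -/
def StarStmt : Prop :=
  ∀ (P Q o : Pt) (α : Fin 3 → Set Pt) (a : Fin 3 → Pt),
    (∀ i, JoinedIn (α i \ {Q}) P (a i)) → (∀ i, JoinedIn (α i \ {P}) (a i) Q) →
    (∀ i j, i ≠ j → α i ∩ α j ⊆ {P, Q}) →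
    (∀ i, JoinedIn {x | ∀ j, j ≠ i → x ∉ α j} o (a i)) → False

/-! ## Part B: soundness -/

/-- SEL: selection of one strand of each bundle. -/
def SelStmt : Prop :=
  ∀ (S : Bund) [Fintype S.E] (a : S.E → ℕ) (Pr : S.E → S.E → Prop) (C : ℕ),
    (∀ e, S.src e ≠ S.tgt e) → (∀ e, 0 < S.w e) → (∀ e, 0 < S.q e) →
    (∀ e f, Pr e f → Pr f e) →
    (∀ e f, e ≠ f → Pr e f → a e ≤ a f → Fintype.card S.E * (2 * S.q e * C) < S.w f) →
    ∀ D : Drawing (BG S), (∀ e ∈ (BG S).edgeSet, (D.crossings e).encard ≤ C) →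
      ∃ σ : S.E → Set Pt, Skel S (fun v => D.pos (.inl v)) σ Pr

/-- ORD: a skeleton of the template gives a solution of the betweenness instance. -/
def OrdStmt : Prop :=
  ∀ (n m : ℕ) (T : Fin m → Fin 3 → Fin n) (β : ℕ), Distinct3 T →
    ∀ (p : TV n m → Pt) (σ : TE n m → Set Pt),
      Skel (tmpl T β) p σ (fun e f => Forb (ty e) (ty f)) → Solvable T

/-! ## Part C: completeness -/

/-- SEG: straight drawings are drawings. -/
def SegStmt : Prop :=
  ∀ (V : Type) [Finite V] (G : SimpleGraph V) (P : V → Pt) (k : ℕ), Function.Injective P →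
    (∀ u v w, G.Adj u v → P w ∈ segment ℝ (P u) (P v) → w = u ∨ w = v) →
    (∀ u v x y, G.Adj u v → G.Adj x y → s(u, v) ≠ s(x, y) →
      ∀ p ∈ segment ℝ (P u) (P v) ∩ segment ℝ (P x) (P y),
        (∃ w, (w = u ∨ w = v) ∧ (w = x ∨ w = y) ∧ p = P w) ∨
        (p ∈ openSegment ℝ (P u) (P v) ∩ openSegment ℝ (P x) (P y) ∧
          (P v - P u).1 * (P y - P x).2 - (P v - P u).2 * (P y - P x).1 ≠ 0)) →
    (∀ u v, G.Adj u v → {f : Sym2 V | ∃ x y, G.Adj x y ∧ f = s(x, y) ∧ f ≠ s(u, v) ∧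
      ∃ p ∈ segment ℝ (P u) (P v) ∩ segment ℝ (P x) (P y),
        ¬ ∃ w, (w = u ∨ w = v) ∧ (w = x ∨ w = y) ∧ p = P w}.encard ≤ k) →
    KPlanar G k

/-- GEN: perturbation to general position. -/
def GenStmt : Prop :=
  ∀ (V : Type) [Finite V] (P : V → Pt) (ε : ℝ), 0 < ε → ∃ R : V → Pt,
    (∀ v, |(R v).1 - (P v).1| < ε ∧ |(R v).2 - (P v).2| < ε) ∧ Generic R

/-- SUB: if every half-strand of `e` crosses at most `q e` other half-strands in a generic
straight drawing, then the bundle graph can be drawn with at most one crossing on each edge. -/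
def SubStmt : Prop :=
  ∀ (S : Bund) [Finite S.V] [Finite S.E], (∀ e, S.src e ≠ S.tgt e) → (∀ e, 0 < S.q e) →
    ∀ P : MV S → Pt, Generic P →
      (∀ h : HS S, {h' | Crosses S P h h'}.encard ≤ S.q h.1.1) → KPlanar (BG S) 1

/-- MID: choice of the midpoints of the strands. -/
def MidStmt : Prop :=
  ∀ (S : Bund) [Finite S.V] [Finite S.E], (∀ e, S.src e ≠ S.tgt e) →
    ∀ (P₀ : S.V → Pt) (Pr : S.E → S.E → Prop), Function.Injective P₀ →
      (∀ e f, e ≠ f → Pr e f →
        ∀ x ∈ segment ℝ (P₀ (S.src e)) (P₀ (S.tgt e)) ∩ segment ℝ (P₀ (S.src f)) (P₀ (S.tgt f)),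
          ∃ v, (v = S.src e ∨ v = S.tgt e) ∧ (v = S.src f ∨ v = S.tgt f) ∧ x = P₀ v) →
      ∃ P : MV S → Pt, Generic P ∧
        ∀ h h' : HS S, Pr h.1.1 h'.1.1 → Apart S h h' → Disjoint (hseg S P h) (hseg S P h')

/-- TPL: the drawing of the template. -/
def TplStmt : Prop :=
  ∀ (n m : ℕ) (T : Fin m → Fin 3 → Fin n) (px : Fin n → ℕ), GoodPos T px →
    Function.Injective (tpos T px) ∧
    ∀ e f : TE n m, e ≠ f → Forb (ty e) (ty f) →
      ∀ x ∈ segment ℝ (tpos T px (tsrc T e)) (tpos T px (ttgt T e)) ∩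
        segment ℝ (tpos T px (tsrc T f)) (tpos T px (ttgt T f)),
        ∃ v, (v = tsrc T e ∨ v = ttgt T e) ∧ (v = tsrc T f ∨ v = ttgt T f) ∧ x = tpos T px v

/-! ## Part D: computability -/

/-- POLY: the reduction is computable in polynomial time. -/
def PolyStmt : Prop :=
  ∀ D κ : ℕ, ∃ f : CNF → Σ N : ℕ, SimpleGraph (Fin N),
    (∀ F, Nonempty ((f F).2 ≃g BG (tmpl (instF F) ((D * ((encodeCNF F).length + 1)) ^ κ)))) ∧
    Nonempty (Turing.TM2ComputableInPolyTime encodeCNF encGraph f)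

/-- DEC: comparing the output of an algorithm with a constant. -/
def DecStmt : Prop :=
  ∀ (C : ℕ) (A : (Σ N : ℕ, SimpleGraph (Fin N)) → ℕ)
    (f : List Bool → Σ N : ℕ, SimpleGraph (Fin N)),
    Nonempty (Turing.TM2ComputableInPolyTime encGraph Computability.encodeNat A) →
    Nonempty (Turing.TM2ComputableInPolyTime (id : List Bool → List Bool) encGraph f) →
    Nonempty (Turing.TM2ComputableInPolyTime (id : List Bool → List Bool) Computability.encodeBool
      (fun w => decide (A (f w) ≤ C)))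

end Pool.Agent.LCR
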